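import Pool.Agent.W_MP_3ab0ed_h43.Step

/-!
MP_3ab0ed_al, piece P5.  From the output of the windmill (the subgroup generated by the rotations is
free on the rotations of a transversal of the apices) to the structure `StepFree`.
-/

set_option linter.unusedSectionVars false

namespace W3ab0ed.Rel

section Apex

variable {κ : Type} {N : Subgroup (FreeGroup κ)} [hN : N.Normal] {V : Type}
  [MulAction (FreeGroup κ ⧸ N) V] {p : ℕ}

/-- the subgroup generated by the rotations -/
def rotK (c : V → FreeGroup κ ⧸ N) (p : ℕ) : Subgroup (FreeGroup κ ⧸ N) :=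
  Subgroup.closure (Set.range fun v => c v ^ p)

/-- **The output of the windmill.**  The stabilizer of the apex `v` is generated by `c v`, and the
subgroup generated by all `(c v)^p` is free on the `(c t)^p`, where `t` runs through a transversal of
its orbits. -/
structure ApexFree (c : V → FreeGroup κ ⧸ N) (p : ℕ) : Prop where
  stab : ∀ v, MulAction.stabilizer (FreeGroup κ ⧸ N) v = Subgroup.zpowers (c v)
  equiv : ∀ (g : FreeGroup κ ⧸ N) v, c (g • v) = g * c v * g⁻¹
  free : ∃ T : Set V, (∀ v, ∃! t, t ∈ T ∧ ∃ k ∈ rotK c p, k • t = v) ∧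
    Function.Injective (FreeGroup.lift (fun t : T => c t ^ p)) ∧
    Subgroup.closure ((fun v => c v ^ p) '' T) = rotK c p

theorem ApexFree.normal {c : V → FreeGroup κ ⧸ N} (H : ApexFree c p) : (rotK c p).Normal := by
  constructor
  intro n hn g
  unfold rotK at hn ⊢
  induction hn using Subgroup.closure_induction with
  | mem y hy =>
    obtain ⟨v, rfl⟩ := hy
    refine Subgroup.subset_closure ⟨g • v, ?_⟩
    simp only
    rw [H.equiv, conj_pow]
  | one => simp
  | mul a b _ _ ha hb =>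
    have : g * (a * b) * g⁻¹ = (g * a * g⁻¹) * (g * b * g⁻¹) := by group
    rw [this]
    exact Subgroup.mul_mem _ ha hb
  | inv a _ ha =>
    have : g * a⁻¹ * g⁻¹ = (g * a * g⁻¹)⁻¹ := by group
    rw [this]
    exact Subgroup.inv_mem _ ha

theorem ApexFree.stepFree {c : V → FreeGroup κ ⧸ N} (H : ApexFree c p) :
    ∃ (N' : Subgroup (FreeGroup κ)) (_ : N'.Normal) (J : Type) (b : J → FreeGroup κ),
      (∀ f, f ∈ N' ↔ (QuotientGroup.mk f : FreeGroup κ ⧸ N) ∈ rotK c p) ∧
      StepFree N N' b p := by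
  have hK := H.normal
  obtain ⟨T, hT, hinj, hgen⟩ := H.free
  let N' : Subgroup (FreeGroup κ) := (rotK c p).comap (QuotientGroup.mk' N)
  have hN' : N'.Normal := hK.comap _
  have hmem : ∀ f, f ∈ N' ↔ (QuotientGroup.mk f : FreeGroup κ ⧸ N) ∈ rotK c p := fun f => Iff.rfl
  let J : Type := MulAction.orbitRel.Quotient (FreeGroup κ ⧸ N) V
  let v0 : J → V := fun j => Quotient.out j
  choose b hb using fun j : J => QuotientGroup.mk_surjective (s := N) (c (v0 j))
  have hle : N ≤ N' := by
    intro f hf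
    rw [hmem, (QuotientGroup.eq_one_iff f).2 hf]
    exact Subgroup.one_mem _
  have hbp : ∀ j, b j ^ p ∈ N' := by
    intro j
    rw [hmem, QuotientGroup.mk_pow, hb]
    exact Subgroup.subset_closure ⟨v0 j, rfl⟩
  choose t ht htu using hT
  simp only at htu
  choose htT k hkK hk using ht
  choose l hl using fun v : V => QuotientGroup.mk_surjective (s := N) (k v)
  -- the apex of a coset
  let ap : Pt N' b → V := fun x => (QuotientGroup.mk x.2.out : FreeGroup κ ⧸ N) • v0 x.1
  let r : Pt N' b → FreeGroup κ := fun x => (l (ap x))⁻¹ * x.2.out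
  have hr : ∀ x, pt N' b x.1 (r x) = x := by
    intro x
    have h1 : pt N' b x.1 x.2.out = x := by
      change (⟨x.1, _⟩ : Pt N' b) = ⟨x.1, x.2⟩
      congr 1
      exact QuotientGroup.out_eq' _
    rw [← h1]
    symm
    have h2 : (pt N' b x.1 x.2.out).1 = x.1 := rfl
    rw [h1]
    nth_rewrite 1 [← h1]
    rw [pt_eq_iff]
    refine ⟨(l (ap x))⁻¹, ?_, 0, by simp [r]⟩
    rw [hmem, QuotientGroup.mk_inv, hl]
    exact Subgroup.inv_mem _ (hkK _)
  have hrt : ∀ x, (QuotientGroup.mk (r x) : FreeGroup κ ⧸ N) • v0 x.1 = t (ap x) := by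
    intro x
    simp only [r]
    rw [QuotientGroup.mk_mul, mul_smul, QuotientGroup.mk_inv, hl, inv_smul_eq_iff, hk]
  have hrc : ∀ x, (QuotientGroup.mk (r x * b x.1 ^ p * (r x)⁻¹) : FreeGroup κ ⧸ N) =
      c (t (ap x)) ^ p := by
    intro x
    rw [← hrt, H.equiv, conj_pow, ← hb, QuotientGroup.mk_mul, QuotientGroup.mk_mul,
      QuotientGroup.mk_pow, QuotientGroup.mk_inv]
  let tt : Pt N' b → T := fun x => ⟨t (ap x), htT _⟩
  have htinj : Function.Injective tt := by
    intro x y h
    have h1 : t (ap x) = t (ap y) := congrArg Subtype.val h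
    rw [← hrt, ← hrt] at h1
    have h2 : x.1 = y.1 := by
      have h3 : (⟦v0 x.1⟧ : J) = ⟦v0 y.1⟧ := by
        apply Quotient.sound
        change MulAction.orbitRel _ _ _ _
        rw [MulAction.orbitRel_apply]
        refine ⟨(QuotientGroup.mk (r x))⁻¹ * QuotientGroup.mk (r y), ?_⟩
        simp only
        rw [mul_smul, ← h1, inv_smul_smul]
      rwa [Quotient.out_eq, Quotient.out_eq] at h3
    have h4 : (QuotientGroup.mk (r y) : FreeGroup κ ⧸ N)⁻¹ * QuotientGroup.mk (r x) ∈
        MulAction.stabilizer (FreeGroup κ ⧸ N) (v0 x.1) := by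
      rw [MulAction.mem_stabilizer_iff, mul_smul, h1, h2, inv_smul_smul]
    rw [H.stab, ← hb] at h4
    obtain ⟨m, hm⟩ := Subgroup.mem_zpowers_iff.1 h4
    have h5 : (QuotientGroup.mk (r x) : FreeGroup κ ⧸ N) = QuotientGroup.mk (r y * b x.1 ^ m) := by
      have h6 : (QuotientGroup.mk (r y * b x.1 ^ m) : FreeGroup κ ⧸ N) =
          QuotientGroup.mk (r y) * QuotientGroup.mk (b x.1) ^ m := rfl
      rw [h6, hm, mul_inv_cancel_left]
    have h6 : r x * (r y * b x.1 ^ m)⁻¹ ∈ N := by
      rw [← QuotientGroup.eq_one_iff, QuotientGroup.mk_mul, QuotientGroup.mk_inv, h5,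
        mul_inv_cancel]
    rw [← hr x, ← hr y, ← h2]
    symm
    rw [pt_eq_iff]
    exact ⟨_, hle h6, m, by group⟩
  have htsurj : Function.Surjective tt := by
    rintro ⟨t0, ht0⟩
    let j : J := ⟦t0⟧
    have h1 : ∃ g : FreeGroup κ ⧸ N, g • v0 j = t0 := by
      have h3 : (⟦t0⟧ : J) = ⟦v0 j⟧ := (Quotient.out_eq j).symm
      have h4 := Quotient.exact h3
      change MulAction.orbitRel _ _ _ _ at h4
      rw [MulAction.orbitRel_apply] at h4
      exact h4
    obtain ⟨g, hg⟩ := h1
    obtain ⟨q, rfl⟩ := QuotientGroup.mk_surjective g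
    refine ⟨pt N' b j q, ?_⟩
    apply Subtype.ext
    simp only [tt]
    symm
    apply htu
    refine ⟨ht0, ?_⟩
    have h1 : pt N' b j q = pt N' b j (pt N' b j q).2.out := by
      change (⟨j, _⟩ : Pt N' b) = ⟨j, _⟩
      congr 1
      exact (QuotientGroup.out_eq' _).symm
    obtain ⟨n, hn, m, hq⟩ := (pt_eq_iff N' b).1 h1
    refine ⟨QuotientGroup.mk n, (hmem n).1 hn, ?_⟩
    have h2 : ap (pt N' b j q) = (QuotientGroup.mk (pt N' b j q).2.out : FreeGroup κ ⧸ N) • v0 j :=
      rfl
    have h3 : (QuotientGroup.mk (b j) : FreeGroup κ ⧸ N) ^ m • v0 j = v0 j := by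
      rw [← MulAction.mem_stabilizer_iff, H.stab, hb]
      exact Subgroup.zpow_mem_zpowers _ _
    rw [h2, hq, QuotientGroup.mk_mul, QuotientGroup.mk_mul, QuotientGroup.mk_zpow, mul_smul,
      mul_smul, h3, hg]
  have hfun : (fun x : Pt N' b =>
      (QuotientGroup.mk (r x * b x.1 ^ p * (r x)⁻¹) : FreeGroup κ ⧸ N)) =
      fun x => c (tt x : V) ^ p := by
    funext x
    exact hrc x
  refine ⟨N', hN', J, b, hmem, ⟨hle, hbp, r, hr, ?_, ?_⟩⟩
  · rw [hfun]
    let e : Pt N' b ≃ T := Equiv.ofBijective tt ⟨htinj, htsurj⟩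
    have h1 : (FreeGroup.lift fun x : Pt N' b => c (tt x : V) ^ p) =
        (FreeGroup.lift (fun t : T => c t ^ p)).comp (FreeGroup.freeGroupCongr e).toMonoidHom := by
      ext x
      simp only [FreeGroup.lift_apply_of, MonoidHom.comp_apply, MulEquiv.coe_toMonoidHom,
        FreeGroup.freeGroupCongr_apply, FreeGroup.map.of]
      rfl
    rw [h1]
    exact hinj.comp (FreeGroup.freeGroupCongr e).injective
  · intro n hn
    rw [hmem, ← hgen] at hn
    rw [hfun]
    have h1 : (FreeGroup.lift fun x : Pt N' b => c (tt x : V) ^ p).range =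
        Subgroup.closure (Set.range fun x : Pt N' b => c (tt x : V) ^ p) :=
      FreeGroup.range_lift_eq_closure
    have h2 : Set.range (fun x : Pt N' b => c (tt x : V) ^ p) = (fun v => c v ^ p) '' T := by
      ext g
      constructor
      · rintro ⟨x, rfl⟩
        exact ⟨tt x, (tt x).2, rfl⟩
      · rintro ⟨v, hv, rfl⟩
        obtain ⟨x, hx⟩ := htsurj ⟨v, hv⟩
        exact ⟨x, by simp only [hx]⟩
    rw [← h2, ← h1] at hn
    exact hn

end Apex

end W3ab0ed.Rel
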