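import Pool.Agent.W_MP_3ab0ed_h43.P4Up
import Pool.Agent.W_MP_3ab0ed_h44.Adapter
import Pool.Agent.Burn.Cyc

/-!
MP_3ab0ed_al, piece P4 (row 77), section 7: condition (E) for the quotient.
-/

universe u

namespace Burn

/-- the integer metric of the quotient -/
noncomputable def RotFam.QM {G Z Γ : Type u} [Group G] [MulAction G Z] [MulAction G Γ]
    {ρ : Z → Z → ℕ} {δ S Th T : ℕ} (F : RotFam G Z Γ ρ δ S Th T) : IMet (RotFam.QZ F) :=
  IMet.ofGeod (RotFam.isGeod_qd (F := F))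

namespace RotFam

variable {G Z Γ : Type u} [Group G] [MulAction G Z] [MulAction G Γ]
  {ρ : Z → Z → ℕ} {δ S Th T : ℕ} {F : RotFam G Z Γ ρ δ S Th T}

theorem QM_inv : (QM F).Inv (G ⧸ KA F) :=
  (IMet.inv_ofGeod _).2 fun g a b => qd_inv g a b

theorem QM_hyp (hT : 5 * Th ≤ T) : (QM F).Hyp (δ : ℤ) :=
  (IMet.ofGeod_hyp _).2 (hyp_qd hT)

theorem QM_d (a b : QZ F) : (QM F).d a b = (qd F a b : ℤ) := rfl

/-- Section 7, local part: `t'` moves all points of the interval between `p`, `p'` by at most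
`15 δ`, `h'` moves `p` to a point at distance at most `3 δ` of `p'`. -/
theorem h43_E_local {n : ℕ} (hT : 5 * Th ≤ T) {R1 : ℕ}
    (hS : 2 * R1 + 15 * δ < S) (h2 : 18 * δ ≤ R1)
    (hstab : ∀ c ∈ F.V, ∀ g : G, g • c = c → g ^ n ∈ KA F)
    (hA3 : ∀ c ∈ F.V, ∀ c' ∈ F.V, c ≠ c' → ∀ g : G, g • c = c → g ∉ KA F →
      ∃ (m : ℕ) (w : Z), ρ c w + ρ w c' = ρ c c' ∧ ∀ k ∈ KA F, δ < ρ w (k • g ^ m • w))
    {t' h' : G ⧸ KA F} (ht : t' ≠ 1) (hc : Commute t' h') (hh : h' ^ n ≠ 1)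
    {p p' : QZ F} (hI : ∀ z, qd F p z + qd F z p' = qd F p p' → qd F z (t' • z) ≤ 15 * δ)
    (hp : qd F p' (h' • p) ≤ 3 * δ) :
    ∃ t h : G, (QuotientGroup.mk t : G ⧸ KA F) = t' ∧ (QuotientGroup.mk h : G ⧸ KA F) = h' ∧
      Commute t h := by
  have hq := isGeod_qd (F := F)
  obtain ⟨t0, rfl⟩ := QuotientGroup.mk_surjective t'
  obtain ⟨h0, rfl⟩ := QuotientGroup.mk_surjective h'
  obtain ⟨x, rfl⟩ := qmk_surj p
  obtain ⟨y, rfl, hxy⟩ := qd_lift x p'
  have hIx : ∀ z, ρ x z + ρ z y = ρ x y →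
      qd F (qmk F z) (qmk F (t0 • z)) ≤ 15 * δ := by
    intro z hz
    have l1 := qd_le (F := F) x z
    have l2 := qd_le (F := F) z y
    have t1 := hq.tri (qmk F x) (qmk F z) (qmk F y)
    exact hI (qmk F z) (by omega)
  by_cases hcase : ∃ z, ρ x z + ρ z y = ρ x y ∧ ∃ c ∈ F.V, ρ z c ≤ R1
  · -- (II)
    exfalso
    obtain ⟨z, hz, c, hcV, hzc⟩ := hcase
    have l1 := qd_le (F := F) z c
    have f1 := h43_L1 hcV (g := t0) (R1 := R1) (b := 15 * δ) (l1.trans hzc) (hIx z hz) hS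
    have f2 : qmk F (t0 • h0 • c) = qmk F (h0 • c) := by
      have e1 : (QuotientGroup.mk t0 : G ⧸ KA F) • (QuotientGroup.mk h0 : G ⧸ KA F) • qmk F c =
          (QuotientGroup.mk h0 : G ⧸ KA F) • (QuotientGroup.mk t0 : G ⧸ KA F) • qmk F c := by
        rw [smul_smul, smul_smul, hc.eq]
      rw [mk_smul_qmk, mk_smul_qmk, mk_smul_qmk, f1] at e1
      exact e1
    by_cases hcc : qmk F c = qmk F (h0 • c)
    · obtain ⟨k, hk, hkc⟩ := h43_fix hcc.symm
      apply hh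
      have h5 := hstab c hcV _ hkc
      have h6 : (QuotientGroup.mk (k * h0) : G ⧸ KA F) = QuotientGroup.mk h0 := by
        rw [QuotientGroup.mk_mul, (QuotientGroup.eq_one_iff k).2 hk, one_mul]
      rw [← h6, ← QuotientGroup.mk_pow, (QuotientGroup.eq_one_iff _).2 h5]
    · apply ht
      rw [QuotientGroup.eq_one_iff]
      exact h43_L4 hT hA3 hcV (F.V_smul _ _ hcV) hcc f1 f2
  · -- (I)
    push Not at hcase
    have hfar : ∀ z, ρ x z + ρ z y = ρ x y → ∀ c ∈ F.V, R1 < ρ z c := by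
      intro z hz c hcV
      exact hcase z hz c hcV
    have hIxx := hIx x (by rw [F.geo.self]; omega)
    have hIyy := hIx y (by rw [F.geo.self]; omega)
    obtain ⟨k1, hk1, hk11⟩ := qd_spec (F := F) x (t0 • x)
    obtain ⟨k2, hk2, hk22⟩ := qd_spec (F := F) y (t0 • y)
    have e0 : k2 • t0 • y = (k2 * k1⁻¹) • (k1 * t0) • y := by
      rw [smul_smul, smul_smul]; congr 1; group
    have hL3 := h43_L3 (g := k1 * t0) (k := k2 * k1⁻¹) hfar (b := 15 * δ) (by omega) hT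
      (by rw [mul_smul, hk11]; exact hIxx)
      (Subgroup.mul_mem _ hk2 (Subgroup.inv_mem _ hk1))
      (by rw [← e0, hk22]; exact hIyy)
    have hty : ρ y ((k1 * t0) • y) ≤ 15 * δ := by
      rw [hL3, one_smul] at e0
      rw [← e0, hk22]; exact hIyy
    have htx : ρ x ((k1 * t0) • x) ≤ 15 * δ := by
      rw [mul_smul, hk11]; exact hIxx
    obtain ⟨k3, hk3, hk33⟩ := qd_spec (F := F) y (h0 • x)
    have hhx : ρ y ((k3 * h0) • x) ≤ 3 * δ := by
      rw [mul_smul, hk33]; exact hp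
    have mt : (QuotientGroup.mk (k1 * t0) : G ⧸ KA F) = QuotientGroup.mk t0 := by
      rw [QuotientGroup.mk_mul, (QuotientGroup.eq_one_iff k1).2 hk1, one_mul]
    have mh : (QuotientGroup.mk (k3 * h0) : G ⧸ KA F) = QuotientGroup.mk h0 := by
      rw [QuotientGroup.mk_mul, (QuotientGroup.eq_one_iff k3).2 hk3, one_mul]
    refine ⟨k1 * t0, k3 * h0, mt, mh, ?_⟩
    generalize hte : k1 * t0 = t at *
    generalize hhe : k3 * h0 = h at *
    have hkK : h * t * h⁻¹ * t⁻¹ ∈ KA F := by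
      rw [← QuotientGroup.eq_one_iff, QuotientGroup.mk_mul, QuotientGroup.mk_mul,
        QuotientGroup.mk_mul, QuotientGroup.mk_inv, QuotientGroup.mk_inv, mt, mh, ← hc.eq]
      group
    have hk1 : h * t * h⁻¹ * t⁻¹ = 1 := by
      apply h43_L2 (y := t • y) (R1 := R1) ?_ hkK ?_
      · intro c hcV
        have := hfar y (by rw [F.geo.self]; omega) (t⁻¹ • c) (F.V_smul _ _ hcV)
        rwa [← F.inv t, smul_inv_smul] at this
      · have e1 : (h * t * h⁻¹ * t⁻¹) • t • y = h • t • h⁻¹ • y := by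
          rw [smul_smul, smul_smul, smul_smul]; congr 1; group
        rw [e1]
        have t1 := F.geo.tri (t • y) y (h • t • h⁻¹ • y)
        have t2 := F.geo.tri y (h • x) (h • t • h⁻¹ • y)
        have t3 := F.geo.tri (h • x) (h • t • x) (h • t • h⁻¹ • y)
        have d1 : ρ (h • x) (h • t • x) = ρ x (t • x) := F.inv _ _ _
        have d2 : ρ (h • t • x) (h • t • h⁻¹ • y) = ρ x (h⁻¹ • y) := by rw [F.inv, F.inv]
        have d3 : ρ x (h⁻¹ • y) = ρ (h • x) y := by rw [← F.inv h, smul_inv_smul]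
        have s1 := F.geo.symm (t • y) y
        have s2 := F.geo.symm (h • x) y
        omega
    show t * h = h * t
    calc t * h = (h * t * h⁻¹ * t⁻¹)⁻¹ * (h * t) := by group
      _ = h * t := by rw [hk1, inv_one, one_mul]

/-- Section 7: condition (E) for the quotient. -/
theorem h43_E [Nonempty Z] {n : ℕ} (hn : n ≠ 0) (hT : 5 * Th ≤ T) {R1 : ℕ}
    (hS : 2 * R1 + 15 * δ < S) (h2 : 18 * δ ≤ R1)
    (hstab : ∀ c ∈ F.V, ∀ g : G, g • c = c → g ^ n ∈ KA F)
    (hA3 : ∀ c ∈ F.V, ∀ c' ∈ F.V, c ≠ c' → ∀ g : G, g • c = c → g ∉ KA F →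
      ∃ (m : ℕ) (w : Z), ρ c w + ρ w c' = ρ c c' ∧ ∀ k ∈ KA F, δ < ρ w (k • g ^ m • w))
    (htor : ∀ g h : G, g ≠ 1 → g ^ n = 1 → Commute g h → h ^ n = 1)
    (hcyc : ∀ g : G, g ^ n ≠ 1 → ∃ w : G, ∀ u : G, Commute u g ↔ u ∈ Subgroup.zpowers w)
    {m0 : ℤ} (hdich : ∀ g : G ⧸ KA F, g ^ n = 1 ∨ (QM F).Lox m0 g)
    (t' h' : G ⧸ KA F) (ht : t' ≠ 1) (htn : t' ^ n = 1) (hc : Commute t' h') : h' ^ n = 1 := by
  by_contra hh
  have hlox : (QM F).Lox m0 h' := (hdich h').resolve_left hh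
  have hi := QM_inv (F := F)
  have hyp := QM_hyp (F := F) hT
  have hd1 := F.dpos
  obtain ⟨z0⟩ := ‹Nonempty Z›
  have : Nonempty (QZ F) := ⟨qmk F z0⟩
  set r := qmk F z0 with hr
  obtain ⟨Rt, hRt⟩ : ∃ a, a = (QM F).d r (t' • r) := ⟨_, rfl⟩
  obtain ⟨Rh, hRh⟩ : ∃ a, a = (QM F).d r (h' • r) := ⟨_, rfl⟩
  have hRt0 : 0 ≤ Rt := by rw [hRt]; exact (QM F).nonneg _ _
  have hRh0 : 0 ≤ Rh := by rw [hRh]; exact (QM F).nonneg _ _
  -- two far points
  obtain ⟨r0, hr0⟩ : ∃ a : ℤ, a = 2 * Rt + 2 * Rh + 10 * δ + 10 := ⟨_, rfl⟩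
  have hm0 : 0 < m0 := by
    have := hlox r 1
    have h0 := (QM F).nonneg r (h' ^ 1 • r)
    push_cast at this
    by_contra hneg
    have : m0 * (QM F).d r (h' ^ 1 • r) ≤ 0 := mul_nonpos_of_nonpos_of_nonneg (by omega) h0
    omega
  obtain ⟨j, hj⟩ : ∃ j : ℕ, m0 * (4 * r0) ≤ j := ⟨(m0 * (4 * r0)).toNat, Int.self_le_toNat _⟩
  set x := h' ^ (-(j : ℤ)) • r with hx
  set y := h' ^ (j : ℤ) • r with hy
  have hfar : 4 * r0 ≤ (QM F).d x y := by
    have h1 : 2 * (j : ℤ) ≤ m0 * (QM F).d x y := Cyc.far hi hlox r j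
    by_contra hlt
    have h3 : (QM F).d x y ≤ 4 * r0 := by omega
    have h4 : m0 * (QM F).d x y ≤ m0 * (4 * r0) := mul_le_mul_of_nonneg_left h3 hm0.le
    have h5 : 0 < m0 * (4 * r0) := mul_pos hm0 (by omega)
    omega
  have htx : (QM F).d x (t' • x) ≤ Rt := by
    rw [hx, Cyc.disp_comm hi hc, ← hRt]
  have hty : (QM F).d y (t' • y) ≤ Rt := by
    rw [hy, Cyc.disp_comm hi hc, ← hRt]
  have hhx : (QM F).d x (h' • x) ≤ Rh := by
    rw [hx, Cyc.disp_comm hi (Commute.refl h'), ← hRh]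
  have hhy : (QM F).d y (h' • y) ≤ Rh := by
    rw [hy, Cyc.disp_comm hi (Commute.refl h'), ← hRh]
  -- deep points are moved by at most `15 δ` by `t'`
  have hdeep : ∀ z, (QM F).Deep x y 0 (r0 - Rh - 2 * δ) z → (QM F).d z (t' • z) ≤ 15 * δ := by
    intro z hz
    have h1 := (QM F).sh_disp hi hyp (by omega) htx hty hz (by omega) le_rfl
    have h2 : |(QM F).sh x t' z| < 12 * δ := by
      by_contra hcon
      push Not at hcon
      have h3 := (QM F).deep_infinite hi hyp (by omega) htx hty hz (by omega) hRt0 hcon n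
      rw [htn, one_smul, (QM F).self] at h3
      omega
    omega
  -- the point `p`
  obtain ⟨p, hp1, hp2⟩ := (QM F).geo x y (2 * r0) (by omega) (by omega)
  have hpD : (QM F).Deep x y 0 r0 p := ⟨by unfold IMet.E; omega, by omega, by omega⟩
  obtain ⟨hq1, hq2, hq3⟩ := (QM F).deep_smul hi hyp (by omega) hhx hhy hpD (by omega) le_rfl
  obtain ⟨t2, ht2⟩ : ∃ a, a = (QM F).d x (h' • p) := ⟨_, rfl⟩
  have hE : (QM F).d x (h' • p) + (QM F).d (h' • p) y - (QM F).d x y ≤ 0 + 2 * δ := hq1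
  -- the point `p'` on a common geodesic with `p`
  obtain ⟨p', hp'1, hp'2, hp'3⟩ : ∃ p', (QM F).d x p' = t2 ∧
      (QM F).d x p' + (QM F).d p' y = (QM F).d x y ∧
      ∀ z, (QM F).d p z + (QM F).d z p' = (QM F).d p p' → (QM F).Deep x y 0 (r0 - Rh - 2 * δ) z := by
    rcases le_total t2 ((QM F).d x p) with hle | hle
    · obtain ⟨p', h1, h2⟩ := (QM F).geo x p t2 (by omega) hle
      have s1 := (QM F).tri x p' y
      have s2 := (QM F).tri p' p y
      refine ⟨p', h1, by omega, ?_⟩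
      intro z hz
      have n1 := (QM F).nonneg p' z
      have n2 := (QM F).nonneg z p
      have s3 := (QM F).symm p z
      have s4 := (QM F).symm z p'
      have s5 := (QM F).symm p p'
      have s6 := (QM F).tri x p' z
      have s7 := (QM F).tri z p y
      have s8 := (QM F).tri x z y
      have s9 := (QM F).tri x z p
      have s10 := (QM F).tri p' z y
      exact ⟨by unfold IMet.E; omega, by omega, by omega⟩
    · obtain ⟨p', h1, h2⟩ := (QM F).geo p y (t2 - (QM F).d x p) (by omega) (by omega)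
      have s1 := (QM F).tri x p' y
      have s2 := (QM F).tri x p p'
      refine ⟨p', by omega, by omega, ?_⟩
      intro z hz
      have n1 := (QM F).nonneg p z
      have n2 := (QM F).nonneg z p'
      have s6 := (QM F).tri x p z
      have s7 := (QM F).tri z p' y
      have s8 := (QM F).tri x z y
      have s9 := (QM F).tri x z p'
      have s10 := (QM F).tri p z y
      exact ⟨by unfold IMet.E; omega, by omega, by omega⟩
  have hclose : (QM F).d p' (h' • p) ≤ 3 * δ := by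
    have h1 := (QM F).G1 hyp x y p' (h' • p) (a := 2 * δ) (by unfold IMet.E; omega)
      (by unfold IMet.E; omega)
    rw [hp'1, ← ht2, sub_self, abs_zero] at h1
    omega
  obtain ⟨t, h, mt, mh, hth⟩ := h43_E_local (F := F) (n := n) hT hS h2 hstab hA3 ht hc hh
    (p := p) (p' := p') (by
      intro z hz
      have h1 := hdeep z (hp'3 z (by simp only [QM_d]; exact_mod_cast hz))
      rw [QM_d] at h1
      exact_mod_cast h1) (by
      rw [QM_d] at hclose
      exact_mod_cast hclose)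
  have ht1 : t ≠ 1 := by
    rintro rfl
    exact ht (by rw [← mt]; rfl)
  by_cases htn' : t ^ n = 1
  · have h3 := htor t h ht1 htn' hth
    apply hh
    rw [← mh, ← QuotientGroup.mk_pow, h3]
    rfl
  · obtain ⟨w, hw⟩ := hcyc t htn'
    obtain ⟨a, ha⟩ := Subgroup.mem_zpowers_iff.1 ((hw h).1 hth.symm)
    obtain ⟨b, hb⟩ := Subgroup.mem_zpowers_iff.1 ((hw t).1 (Commute.refl t))
    have hb0 : b ≠ 0 := by
      rintro rfl
      apply ht1
      rw [← hb, zpow_zero]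
    have hab : h ^ b = t ^ a := by
      rw [← ha, ← hb, ← zpow_mul, ← zpow_mul, mul_comm]
    have hab' : h' ^ b = t' ^ a := by
      rw [← mt, ← mh, ← QuotientGroup.mk_zpow, ← QuotientGroup.mk_zpow, hab]
    have : h' ^ (b * n) = 1 := by
      rw [zpow_mul, hab', ← zpow_mul, mul_comm, zpow_mul, zpow_natCast, htn, one_zpow]
    exact hlox.zpow_ne (mul_ne_zero hb0 (by exact_mod_cast hn)) this

end RotFam

end Burn
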