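import Pool.Agent.W_MP_3ab0ed_h43.Rel

/-!
Homology part of MP_3ab0ed_al, block REL.  The group `G = F / [N, N]`, its action on the points and
the coordinates.
-/

set_option linter.unusedSectionVars false

namespace W3ab0ed.Rel

open Finsupp

section Gc

variable {κ : Type} (N : Subgroup (FreeGroup κ)) [hN : N.Normal] {I : Type} (a : I → FreeGroup κ)

/-- the group `G = F / [N, N]` -/
abbrev GG : Type := FreeGroup κ ⧸ ⁅N, N⁆

theorem comm_le : ⁅N, N⁆ ≤ N := Subgroup.commutator_le_left N N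

/-- the projection to `B = F / N` -/
def toB : GG N →* BB N := QuotientGroup.map ⁅N, N⁆ N (MonoidHom.id _) (comm_le N)

@[simp] theorem toB_mk (f : FreeGroup κ) : toB N (QuotientGroup.mk f) = QuotientGroup.mk f := rfl

theorem mem_comm_iff (n : N) : (n : FreeGroup κ) ∈ ⁅N, N⁆ ↔ nab N n = 0 := by
  have h : (commutator N).map N.subtype = ⁅N, N⁆ := Subgroup.map_subtype_commutator N
  rw [← h, Subgroup.mem_map]
  have h2 : nab N n = 0 ↔ n ∈ commutator N := by
    rw [nab, ← QuotientGroup.eq_one_iff]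
    rfl
  rw [h2]
  constructor
  · rintro ⟨m, hm, hmn⟩
    have : m = n := Subtype.ext hmn
    rwa [← this]
  · intro hn
    exact ⟨n, hn, rfl⟩

theorem mk_eq_iff (m n : N) :
    (QuotientGroup.mk (m : FreeGroup κ) : GG N) = QuotientGroup.mk (n : FreeGroup κ) ↔
      nab N m = nab N n := by
  rw [QuotientGroup.eq]
  have h := mem_comm_iff N (m⁻¹ * n)
  rw [Subgroup.coe_mul, Subgroup.coe_inv] at h
  rw [h, nab_mul, nab_inv, neg_add_eq_zero]

/-- the action of `G` on the points -/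
def gAct : GG N →* Equiv.Perm (Pt N a) :=
  QuotientGroup.lift ⁅N, N⁆ (MulAction.toPermHom (FreeGroup κ) (Pt N a)) (by
    intro f hf
    ext1 x
    exact smul_of_mem N a (comm_le N hf) x)

@[simp] theorem gAct_mk (f : FreeGroup κ) (x : Pt N a) :
    gAct N a (QuotientGroup.mk f) x = f • x := rfl

/-- the action of `B` on the points -/
def bAct : BB N →* Equiv.Perm (Pt N a) :=
  QuotientGroup.lift N (MulAction.toPermHom (FreeGroup κ) (Pt N a)) (by
    intro f hf
    ext1 x
    exact smul_of_mem N a hf x)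

@[simp] theorem bAct_mk (f : FreeGroup κ) (x : Pt N a) :
    bAct N a (QuotientGroup.mk f) x = f • x := rfl

theorem gAct_eq (g : GG N) : gAct N a g = bAct N a (toB N g) := by
  obtain ⟨f, rfl⟩ := QuotientGroup.mk_surjective g
  rfl

variable {p : ℕ} (hexp : ∀ f : FreeGroup κ, f ^ p ∈ N)

/-- the element of `G` belonging to a point -/
noncomputable def tG (x : Pt N a) : GG N :=
  QuotientGroup.mk (relElt N a hexp x.1 x.2.out : FreeGroup κ)

theorem tG_pt (i : I) (q : FreeGroup κ) :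
    tG N a hexp (pt N a i q) = QuotientGroup.mk (q * a i ^ p * q⁻¹) := by
  unfold tG
  change _ = (QuotientGroup.mk ((relElt N a hexp i q : N) : FreeGroup κ) : GG N)
  rw [mk_eq_iff]
  exact relVec_pt N a hexp i q

theorem tG_eq_iff {n : N} {x : Pt N a} :
    tG N a hexp x = QuotientGroup.mk (n : FreeGroup κ) ↔ relVec N a hexp x = nab N n := by
  unfold tG relVec
  exact mk_eq_iff N _ _

theorem tG_smul (g : GG N) (x : Pt N a) :
    tG N a hexp (gAct N a g x) = g * tG N a hexp x * g⁻¹ := by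
  obtain ⟨f, rfl⟩ := QuotientGroup.mk_surjective g
  obtain ⟨i, q, rfl⟩ := exists_pt N a x
  rw [gAct_mk, smul_pt, tG_pt, tG_pt, ← QuotientGroup.mk_mul, ← QuotientGroup.mk_inv,
    ← QuotientGroup.mk_mul]
  congr 1
  group

theorem toB_tG (x : Pt N a) : toB N (tG N a hexp x) = 1 := by
  unfold tG
  rw [toB_mk]
  exact (QuotientGroup.eq_one_iff _).2 (relElt N a hexp x.1 x.2.out).2

theorem tG_comm (x y : Pt N a) : tG N a hexp x * tG N a hexp y = tG N a hexp y * tG N a hexp x := by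
  have h : gAct N a (tG N a hexp x) = 1 := by
    rw [gAct_eq, toB_tG, map_one]
  have h2 := tG_smul N a hexp (tG N a hexp x) y
  rw [h, Equiv.Perm.one_apply] at h2
  exact (eq_mul_inv_iff_mul_eq.1 h2).symm

theorem gAct_tG (x : Pt N a) : gAct N a (tG N a hexp x) = 1 := by
  rw [gAct_eq, toB_tG, map_one]

variable {N a}
variable (H : RelBasis N a p)

theorem sec_inv_mul_mem (f : FreeGroup κ) : (sec N (QuotientGroup.mk f))⁻¹ * f ∈ N := by
  rw [← QuotientGroup.eq_one_iff]
  simp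

/-- the coordinates on `G` -/
noncomputable def RelBasis.cG (g : GG N) : Pt N a →₀ ℤ :=
  Quotient.liftOn' g (fun f => H.co (nab N ⟨_, sec_inv_mul_mem f⟩)) (by
    intro f f' hff
    rw [QuotientGroup.leftRel_apply] at hff
    have h1 : (QuotientGroup.mk f : BB N) = QuotientGroup.mk f' := by
      rw [QuotientGroup.eq]
      exact comm_le N hff
    congr 1
    rw [← mk_eq_iff]
    rw [QuotientGroup.eq]
    change ((sec N (QuotientGroup.mk f))⁻¹ * f)⁻¹ * ((sec N (QuotientGroup.mk f'))⁻¹ * f') ∈ ⁅N, N⁆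
    rw [h1, mul_inv_rev, inv_inv, mul_assoc, mul_inv_cancel_left]
    exact hff)

theorem RelBasis.cG_mk (f : FreeGroup κ) :
    H.cG (QuotientGroup.mk f) = H.co (nab N ⟨_, sec_inv_mul_mem f⟩) := rfl

theorem RelBasis.cG_mul_nab (g : GG N) (n : N) :
    H.cG (g * QuotientGroup.mk (n : FreeGroup κ)) = H.cG g + H.co (nab N n) := by
  obtain ⟨f, rfl⟩ := QuotientGroup.mk_surjective g
  rw [← QuotientGroup.mk_mul, H.cG_mk, H.cG_mk, ← H.co_add, ← nab_mul]
  congr 2
  apply Subtype.ext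
  simp only [Subgroup.coe_mul]
  have : (QuotientGroup.mk (f * (n : FreeGroup κ)) : BB N) = QuotientGroup.mk f := by
    rw [QuotientGroup.mk_mul, (QuotientGroup.eq_one_iff (n : FreeGroup κ)).2 n.2, mul_one]
  rw [this, mul_assoc]

theorem RelBasis.cG_mul_t (g : GG N) (x : Pt N a) :
    H.cG (g * tG N a H.exp x) = H.cG g + single x 1 := by
  unfold tG
  rw [H.cG_mul_nab]
  congr 1
  exact H.co_relVec x

theorem toB_mul_t (g : GG N) (x : Pt N a) : toB N (g * tG N a hexp x) = toB N g := by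
  rw [map_mul, toB_tG, mul_one]

theorem RelBasis.cG_injective {g g' : GG N} (h1 : toB N g = toB N g') (h2 : H.cG g = H.cG g') :
    g = g' := by
  obtain ⟨f, rfl⟩ := QuotientGroup.mk_surjective g
  obtain ⟨f', rfl⟩ := QuotientGroup.mk_surjective g'
  have hB : (QuotientGroup.mk f : BB N) = QuotientGroup.mk f' := h1
  have hm : f⁻¹ * f' ∈ N := QuotientGroup.eq.1 hB
  have e : (QuotientGroup.mk f' : GG N) = QuotientGroup.mk f * QuotientGroup.mk (f⁻¹ * f') := by
    rw [← QuotientGroup.mk_mul, mul_inv_cancel_left]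
  have h3 := H.cG_mul_nab (QuotientGroup.mk f) ⟨f⁻¹ * f', hm⟩
  simp only at h3
  rw [← e, ← h2] at h3
  have h4 : H.co (nab N ⟨f⁻¹ * f', hm⟩) = H.co 0 := by
    have h5 : H.co 0 = 0 := by simp [RelBasis.co]
    rw [h5]
    exact (add_eq_left.1 h3.symm)
  have h6 := H.co_injective h4
  have h7 := (mem_comm_iff N ⟨f⁻¹ * f', hm⟩).2 h6
  exact QuotientGroup.eq.2 h7

theorem RelBasis.exists_g (b : BB N) (v : Pt N a →₀ ℤ) : ∃ g : GG N, toB N g = b ∧ H.cG g = v := by
  obtain ⟨w, hw⟩ := H.co_surj (v - H.cG (QuotientGroup.mk (sec N b)))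
  obtain ⟨n, rfl⟩ := nab_surj N w
  refine ⟨QuotientGroup.mk (sec N b) * QuotientGroup.mk (n : FreeGroup κ), ?_, ?_⟩
  · rw [map_mul, toB_mk, toB_mk, (QuotientGroup.eq_one_iff (n : FreeGroup κ)).2 n.2, mul_one,
      mk_sec]
  · rw [H.cG_mul_nab, hw]
    abel

/-- `G` as a set is the product of `B` and the free abelian group on the points -/
noncomputable def RelBasis.gEquiv : GG N ≃ BB N × (Pt N a →₀ ℤ) :=
  Equiv.ofBijective (fun g => (toB N g, H.cG g)) ⟨fun g g' h => by
    simp only [Prod.mk.injEq] at h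
    exact H.cG_injective h.1 h.2, fun ⟨b, v⟩ => by
    obtain ⟨g, h1, h2⟩ := H.exists_g b v
    exact ⟨g, Prod.ext h1 h2⟩⟩

theorem RelBasis.gEquiv_apply (g : GG N) : H.gEquiv g = (toB N g, H.cG g) := rfl

theorem RelBasis.gEquiv_mul_t (g : GG N) (x : Pt N a) :
    H.gEquiv (g * tG N a H.exp x) = ((H.gEquiv g).1, (H.gEquiv g).2 + single x 1) := by
  rw [H.gEquiv_apply, H.gEquiv_apply, toB_mul_t, H.cG_mul_t]

end Gc

end W3ab0ed.Rel
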