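import Pool.Agent.W_MP_3ab0ed_h43.Fix
import Pool.Agent.W_MP_3ab0ed_h43.Gc
import Pool.Agent.W_MP_3ab0ed_h44.Dat

/-!
Homology part of MP_3ab0ed_al, block REL.  The data needed in the homology computation, from the
basis of the abelianization of `N`.
-/

set_option linter.unusedSectionVars false

namespace W3ab0ed.Rel

open Finsupp

section Data

variable {κ : Type} (N : Subgroup (FreeGroup κ)) [hN : N.Normal] {I : Type} (a : I → FreeGroup κ)

/-- the projection of the free group onto `G` -/
abbrev phi : FreeGroup κ →* GG N := QuotientGroup.mk' ⁅N, N⁆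

@[simp] theorem toB_phi (f : FreeGroup κ) : toB N (phi N f) = QuotientGroup.mk f := rfl

theorem RQ_eq (f : FreeGroup κ) (v : ZB N) :
    RQ (phi N) (toB N) f v = rm N (QuotientGroup.mk f) v := rfl

theorem del_eq (u : ZBk N) : del (RQ (phi N) (toB N)) u = bd N u := by
  induction u using Finsupp.induction_linear with
  | zero => simp
  | add u v hu hv => rw [map_add, map_add, hu, hv]
  | single s v => rw [del_single, bd_single]; rfl

theorem RQ_one (v : ZB N) : RQ (phi N) (toB N) 1 v = v := by
  induction v using Finsupp.induction_linear with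
  | zero => simp
  | add u v hu hv => rw [map_add, hu, hv]
  | single b m =>
    rw [RQ_eq, rm_single, QuotientGroup.mk_one, mul_one]

theorem RQ_mul (f g : FreeGroup κ) (v : ZB N) :
    RQ (phi N) (toB N) (f * g) v = RQ (phi N) (toB N) g (RQ (phi N) (toB N) f v) := by
  induction v using Finsupp.induction_linear with
  | zero => simp
  | add u v hu hv => rw [map_add, map_add, map_add, hu, hv]
  | single b m =>
    rw [RQ_eq, RQ_eq, RQ_eq, rm_single, rm_single, rm_single, QuotientGroup.mk_mul, mul_assoc]

/-- comparison of the two Fox calculi -/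
theorem PP_single (f : FreeGroup κ) (b : BB N) :
    PP (RQ (phi N) (toB N)) f (single b 1) = lk N b (fox N f) := by
  induction f using FreeGroup.induction_on generalizing b with
  | C1 => rw [PP_one, fox_one, map_zero]
  | of s => rw [PP_of _ (RQ_one N), fox_of, lk_single, lm_single, mul_one]
  | inv_of s hs =>
    have h2 : ∀ x : ZB N, PP (RQ (phi N) (toB N)) (FreeGroup.of s)⁻¹ x =
        - PP (RQ (phi N) (toB N)) (FreeGroup.of s) (RQ (phi N) (toB N) (FreeGroup.of s)⁻¹ x) := by
      intro x
      have := PP_mul _ (RQ_mul N) (FreeGroup.of s)⁻¹ (FreeGroup.of s) x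
      rw [inv_mul_cancel, PP_one] at this
      exact eq_neg_of_add_eq_zero_left this.symm
    rw [h2, RQ_eq, rm_single, hs, fox_inv, map_neg, ← lk_mul, QuotientGroup.mk_inv]
  | mul f g hf hg =>
    rw [PP_mul _ (RQ_mul N), hf, RQ_eq, rm_single, hg, fox_mul, map_add, lk_mul]

variable {N a} {p : ℕ} (H : RelBasis N a p)

/-- the point `b • (i, 1)` -/
def toPt (i : I) (b : BB N) : Pt N a := bAct N a b (pt N a i 1)

theorem toPt_mk (i : I) (q : FreeGroup κ) : toPt i (QuotientGroup.mk q : BB N) = pt N a i q := by
  unfold toPt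
  rw [bAct_mk, smul_pt, mul_one]

/-- the map into the free abelian group on the points -/
noncomputable def gam (N : Subgroup (FreeGroup κ)) [N.Normal] (a : I → FreeGroup κ) :
    (I →₀ ZB N) →ₗ[ℤ] (Pt N a →₀ ℤ) :=
  Finsupp.lsum ℤ fun i => Finsupp.lmapDomain ℤ ℤ (toPt i)

theorem gam_single (i : I) (q : FreeGroup κ) (m : ℤ) :
    gam N a (single i (single (QuotientGroup.mk q : BB N) m)) = single (pt N a i q) m := by
  rw [gam, Finsupp.lsum_single, Finsupp.lmapDomain_apply, Finsupp.mapDomain_single, toPt_mk]

/-- the relation map factors through the map `theta` -/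
theorem RelBasis.relM_eq (z : I →₀ ZB N) :
    relM (phi N) (toB N) a p z = H.theta (gam N a z) := by
  induction z using Finsupp.induction_linear with
  | zero => simp
  | add u v hu hv => rw [map_add, map_add, map_add, hu, hv]
  | single i v =>
    induction v using Finsupp.induction_linear with
    | zero => simp
    | add u v hu hv => rw [single_add, map_add, map_add, map_add, hu, hv]
    | single b m =>
      obtain ⟨q, rfl⟩ := QuotientGroup.mk_surjective b
      have e : (single i (single (QuotientGroup.mk q : BB N) m) : I →₀ ZB N) =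
          m • single i (single (QuotientGroup.mk q) 1) := by
        rw [smul_single, smul_single, smul_eq_mul, mul_one]
      rw [e, map_zsmul, map_zsmul, map_zsmul, gam_single, H.theta_pt]
      congr 1
      rw [relM, Finsupp.lsum_single, PP_single]

theorem gam_surj (v : Pt N a →₀ ℤ) : ∃ z, gam N a z = v := by
  induction v using Finsupp.induction_linear with
  | zero => exact ⟨0, map_zero _⟩
  | add u v hu hv =>
    obtain ⟨z, hz⟩ := hu
    obtain ⟨w, hw⟩ := hv
    exact ⟨z + w, by rw [map_add, hz, hw]⟩
  | single x m =>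
    obtain ⟨i, q, rfl⟩ := exists_pt N a x
    exact ⟨_, gam_single i q m⟩

/-- right multiplication by the image of `a i` -/
def rPerm (N : Subgroup (FreeGroup κ)) [N.Normal] (a : I → FreeGroup κ) (i : I) :
    Equiv.Perm (BB N) := Equiv.mulRight (QuotientGroup.mk (a i))

theorem rPerm_pow (i : I) (j : ℕ) (b : BB N) :
    (rPerm N a i ^ j) b = b * (QuotientGroup.mk (a i) : BB N) ^ j := by
  induction j generalizing b with
  | zero => simp
  | succ j ih =>
    rw [pow_succ, Equiv.Perm.mul_apply, ih, pow_succ']
    simp [rPerm, mul_assoc]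

open Classical in
/-- the norm of the fibre over a point -/
noncomputable def bet (N : Subgroup (FreeGroup κ)) [N.Normal] (a : I → FreeGroup κ) (p : ℕ) (i : I) :
    (Pt N a →₀ ℤ) →ₗ[ℤ] ZB N :=
  Finsupp.lsum ℤ fun x => if x.1 = i then
    LinearMap.toSpanSingleton ℤ (ZB N) (nrm p (rPerm N a i) (single (QuotientGroup.mk x.2.out) 1))
    else 0

theorem RelBasis.rPerm_pow_p (H : RelBasis N a p) (i : I) : rPerm N a i ^ p = 1 := by
  ext b
  rw [rPerm_pow, ← QuotientGroup.mk_pow, (QuotientGroup.eq_one_iff _).2 (H.exp (a i)), mul_one]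
  rfl

theorem rPerm_zpow (i : I) (b : BB N) (k : ℤ) :
    (rPerm N a i ^ k) b = b * (QuotientGroup.mk (a i) : BB N) ^ k := by
  cases k with
  | ofNat n => simpa using rPerm_pow i n b
  | negSucc n =>
    rw [zpow_negSucc, zpow_negSucc, Equiv.Perm.inv_eq_iff_eq, rPerm_pow, inv_mul_cancel_right]

variable [hp : Fact p.Prime]

include H in
theorem RelBasis.nrm_zpow (i : I) (b : BB N) (k : ℤ) (m : ℤ) :
    nrm p (rPerm N a i) (single (b * (QuotientGroup.mk (a i) : BB N) ^ k) m) =
      nrm p (rPerm N a i) (single b m) := by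
  obtain ⟨j, hj⟩ : ∃ j : ℕ, rPerm N a i ^ k = rPerm N a i ^ j := by
    refine ⟨(k % p).toNat, ?_⟩
    have h1 : ((k % p).toNat : ℤ) = k % p :=
      Int.toNat_of_nonneg (Int.emod_nonneg _ (by exact_mod_cast hp.out.ne_zero))
    rw [← zpow_natCast, h1, Int.emod_def, zpow_sub, zpow_mul, zpow_natCast, H.rPerm_pow_p,
      one_zpow, inv_one, mul_one]
  have h2 : (b * (QuotientGroup.mk (a i) : BB N) ^ k) = (rPerm N a i ^ j) b := by
    rw [← hj, rPerm_zpow]
  rw [h2, ← pop_single, nrm_pop_pow]
  exact H.rPerm_pow_p i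

include H in
theorem RelBasis.bet_same (i : I) (q : FreeGroup κ) (m : ℤ) :
    bet N a p i (single (pt N a i q) m) =
      nrm p (rPerm N a i) (single (QuotientGroup.mk q) m) := by
  have h1 : pt N a i q = pt N a i (pt N a i q).2.out := by
    change (⟨i, _⟩ : Pt N a) = ⟨i, _⟩
    congr 1
    exact (QuotientGroup.out_eq' _).symm
  obtain ⟨n, hn, k, hk⟩ := (pt_eq_iff N a).1 h1
  have h2 : (QuotientGroup.mk (pt N a i q).2.out : BB N) =
      QuotientGroup.mk q * (QuotientGroup.mk (a i)) ^ k := by
    rw [hk, QuotientGroup.mk_mul, QuotientGroup.mk_mul, (QuotientGroup.eq_one_iff n).2 hn, one_mul,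
      QuotientGroup.mk_zpow]
  rw [bet, Finsupp.lsum_single, if_pos rfl, LinearMap.toSpanSingleton_apply, h2, H.nrm_zpow,
    ← map_zsmul, smul_single, smul_eq_mul, mul_one]

theorem bet_ne {i j : I} (h : j ≠ i) (q : FreeGroup κ) (m : ℤ) :
    bet N a p i (single (pt N a j q) m) = 0 := by
  rw [bet, Finsupp.lsum_single, if_neg h, LinearMap.zero_apply]

include H in
theorem RelBasis.bet_gam (i : I) (z : I →₀ ZB N) :
    bet N a p i (gam N a z) = nrm p (rPerm N a i) (z i) := by
  induction z using Finsupp.induction_linear with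
  | zero => simp
  | add u v hu hv => rw [map_add, map_add, hu, hv, Finsupp.add_apply, map_add]
  | single j v =>
    by_cases hj : j = i
    · subst hj
      rw [Finsupp.single_eq_same]
      induction v using Finsupp.induction_linear with
      | zero => simp
      | add u v hu hv => rw [single_add, map_add, map_add, hu, hv, map_add]
      | single b m =>
        obtain ⟨q, rfl⟩ := QuotientGroup.mk_surjective b
        rw [gam_single, H.bet_same]
    · rw [Finsupp.single_eq_of_ne (Ne.symm hj), map_zero]
      induction v using Finsupp.induction_linear with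
      | zero => simp
      | add u v hu hv => rw [single_add, map_add, map_add, hu, hv, add_zero]
      | single b m =>
        obtain ⟨q, rfl⟩ := QuotientGroup.mk_surjective b
        rw [gam_single, bet_ne hj]

include H in
theorem RelBasis.pker : (toB N).ker = Subgroup.closure (Set.range (tG N a H.exp)) := by
  apply le_antisymm
  · intro g hg
    obtain ⟨f, rfl⟩ := QuotientGroup.mk_surjective g
    rw [MonoidHom.mem_ker, toB_mk, QuotientGroup.eq_one_iff] at hg
    let A : AddSubgroup (Nab N) :=
      { carrier := {v | ∀ n : N, nab N n = v → (QuotientGroup.mk (n : FreeGroup κ) : GG N) ∈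
          Subgroup.closure (Set.range (tG N a H.exp))}
        zero_mem' := by
          intro n hn
          have h1 : (QuotientGroup.mk (n : FreeGroup κ) : GG N) =
              QuotientGroup.mk ((1 : N) : FreeGroup κ) := by
            rw [mk_eq_iff, hn, nab_one]
          rw [h1]
          exact Subgroup.one_mem _
        add_mem' := by
          intro v w hv hw n hn
          obtain ⟨n1, rfl⟩ := nab_surj N v
          obtain ⟨n2, rfl⟩ := nab_surj N w
          have h1 : (QuotientGroup.mk (n : FreeGroup κ) : GG N) =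
              QuotientGroup.mk ((n1 * n2 : N) : FreeGroup κ) := by
            rw [mk_eq_iff, hn, nab_mul]
          rw [h1, Subgroup.coe_mul, QuotientGroup.mk_mul]
          exact Subgroup.mul_mem _ (hv n1 rfl) (hw n2 rfl)
        neg_mem' := by
          intro v hv n hn
          obtain ⟨n1, rfl⟩ := nab_surj N v
          have h1 : (QuotientGroup.mk (n : FreeGroup κ) : GG N) =
              QuotientGroup.mk ((n1⁻¹ : N) : FreeGroup κ) := by
            rw [mk_eq_iff, hn, nab_inv]
          rw [h1, Subgroup.coe_inv, QuotientGroup.mk_inv]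
          exact Subgroup.inv_mem _ (hv n1 rfl) }
    have hA : Submodule.span ℤ (Set.range (relVec N a H.exp)) ≤ AddSubgroup.toIntSubmodule A := by
      rw [Submodule.span_le]
      rintro v ⟨x, rfl⟩
      intro n hn
      rw [← (tG_eq_iff N a H.exp).2 hn.symm]
      exact Subgroup.subset_closure ⟨x, rfl⟩
    exact hA (H.sp (nab N ⟨f, hg⟩)) ⟨f, hg⟩ rfl
  · rw [Subgroup.closure_le]
    rintro _ ⟨x, rfl⟩
    exact toB_tG N a H.exp x

include H in
/-- **The data for the homology computation.** -/
theorem RelBasis.good (hodd : p ≠ 2) :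
    Good (phi N) (toB N) (tG N a H.exp) H.cG a (fun i => pt N a i 1) p where
  prime := hp.out
  odd := hodd
  phi_surj := QuotientGroup.mk'_surjective _
  pi_surj := by
    intro b
    obtain ⟨f, rfl⟩ := QuotientGroup.mk_surjective b
    exact ⟨QuotientGroup.mk f, rfl⟩
  tcomm := tG_comm N a H.exp
  tconj f x := (tG_smul N a H.exp (phi N f) x).symm
  pker := H.pker
  act_triv f x h := smul_of_mem N a ((QuotientGroup.eq_one_iff f).1 h) x
  apow i := by
    rw [tG_pt, one_mul, inv_one, mul_one, ← map_pow]
    rfl
  afix i := by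
    rw [smul_pt_eq_iff]
    exact ⟨1, N.one_mem, 1, by simp⟩
  coord := H.cG_mul_t
  exp q := by
    obtain ⟨f, rfl⟩ := QuotientGroup.mk_surjective q
    rw [← QuotientGroup.mk_pow]
    exact (QuotientGroup.eq_one_iff _).2 (H.exp f)
  ane i h := H.a_not_mem i ((QuotientGroup.eq_one_iff _).1 h)
  orb x := by
    obtain ⟨i, q, rfl⟩ := exists_pt N a x
    exact ⟨i, q, by rw [smul_pt, mul_one]⟩
  orb_inj i j f h := congrArg Sigma.fst h
  fix_unique f x y hx hy := by
    by_cases hf : f ∈ N
    · exact Or.inr ((QuotientGroup.eq_one_iff f).2 hf)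
    · exact Or.inl (H.fixed_unique hf hx hy)
  stab i f h := by
    rw [smul_pt_eq_iff] at h
    obtain ⟨n, hn, k, rfl⟩ := h
    refine ⟨(k % p).toNat, ?_⟩
    have h1 : ((k % p).toNat : ℤ) = k % p :=
      Int.toNat_of_nonneg (Int.emod_nonneg _ (by exact_mod_cast hp.out.ne_zero))
    have h3 : (QuotientGroup.mk (a i) : BB N) ^ (p : ℤ) = 1 := by
      rw [zpow_natCast, ← QuotientGroup.mk_pow]
      exact (QuotientGroup.eq_one_iff _).2 (H.exp _)
    rw [toB_phi, toB_phi, ← zpow_natCast, h1, Int.emod_def, zpow_sub, zpow_mul, h3, one_zpow,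
      inv_one, mul_one, one_mul, inv_one, mul_one, QuotientGroup.mk_mul,
      (QuotientGroup.eq_one_iff n).2 hn, one_mul, QuotientGroup.mk_zpow]
  exact1 u hu := by
    rw [del_eq] at hu
    obtain ⟨v, hv⟩ := H.exact_theta hu
    obtain ⟨z, rfl⟩ := gam_surj v
    exact ⟨z, by rw [H.relM_eq, hv]⟩
  exact2 z hz i := by
    rw [H.relM_eq] at hz
    have h0 : gam N a z = 0 := H.theta_injective (by rw [hz, map_zero])
    have h1 := H.bet_gam i z
    rw [h0, map_zero] at h1
    obtain ⟨w, hw⟩ := exists_of_nrm_eq_zero p (rPerm N a i) (H.rPerm_pow_p i) (by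
      intro b hb
      have hb' : b * (QuotientGroup.mk (a i) : BB N) = b := hb
      exact H.a_not_mem i ((QuotientGroup.eq_one_iff _).1 (mul_eq_left.1 hb'))) h1.symm
    exact ⟨w, hw.symm⟩

end Data

end W3ab0ed.Rel
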