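import Mathlib

/-!
MP_3ab0ed_al.  Laws, verbal subgroups, relatively free groups; the variety given by the law
`[x^p, y^p] = 1`: it is proper, it is not abelian, and its verbal subgroups are the commutator
subgroups of the subgroups generated by all `p`-th powers.
-/

namespace W3ab0ed.Laws

open scoped commutatorElement

/-- The group `G` satisfies all laws of the set `W`. -/
def Sat (W : Set (FreeGroup ℕ)) (G : Type) [Group G] : Prop :=
  ∀ w ∈ W, ∀ x : ℕ → G, FreeGroup.lift x w = 1

/-- The verbal subgroup of `G` for the set of laws `W`: the subgroup generated by all values in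
`G` of the words in `W`. -/
def verbal (W : Set (FreeGroup ℕ)) (G : Type) [Group G] : Subgroup G :=
  Subgroup.closure {g | ∃ w ∈ W, ∃ x : ℕ → G, FreeGroup.lift x w = g}

theorem conj_lift {G : Type} [Group G] (x : ℕ → G) (w : FreeGroup ℕ) (g : G) :
    g * FreeGroup.lift x w * g⁻¹ = FreeGroup.lift (fun i => g * x i * g⁻¹) w := by
  have h : (MulAut.conj g).toMonoidHom.comp (FreeGroup.lift x) =
      FreeGroup.lift (fun i => g * x i * g⁻¹) := by
    ext i
    simp
  have := DFunLike.congr_fun h w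
  simpa using this

instance verbal_normal (W : Set (FreeGroup ℕ)) (G : Type) [Group G] : (verbal W G).Normal := by
  constructor
  intro n hn g
  unfold verbal at hn ⊢
  induction hn using Subgroup.closure_induction with
  | mem y hy =>
    obtain ⟨w, hw, x, rfl⟩ := hy
    refine Subgroup.subset_closure ⟨w, hw, fun i => g * x i * g⁻¹, ?_⟩
    exact (conj_lift x w g).symm
  | one => simp
  | mul a b _ _ ha hb =>
    have : g * (a * b) * g⁻¹ = (g * a * g⁻¹) * (g * b * g⁻¹) := by group
    rw [this]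
    exact Subgroup.mul_mem _ ha hb
  | inv a _ ha =>
    have : g * a⁻¹ * g⁻¹ = (g * a * g⁻¹)⁻¹ := by group
    rw [this]
    exact Subgroup.inv_mem _ ha

/-- The free group of rank `κ` in the variety given by the laws `W`. -/
abbrev RelFree (W : Set (FreeGroup ℕ)) (κ : Type) : Type :=
  FreeGroup κ ⧸ verbal W (FreeGroup κ)

/-- The law `[x^p, y^p] = 1`. -/
def lawP (p : ℕ) : Set (FreeGroup ℕ) :=
  {⁅(FreeGroup.of 0) ^ p, (FreeGroup.of 1) ^ p⁆}

theorem lift_lawP (p : ℕ) {G : Type} [Group G] (x : ℕ → G) :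
    FreeGroup.lift x ⁅(FreeGroup.of 0) ^ p, (FreeGroup.of 1) ^ p⁆ = ⁅x 0 ^ p, x 1 ^ p⁆ := by
  simp [commutatorElement_def]

theorem sat_lawP_iff (p : ℕ) (G : Type) [Group G] :
    Sat (lawP p) G ↔ ∀ x y : G, x ^ p * y ^ p = y ^ p * x ^ p := by
  constructor
  · intro h x y
    have h1 := h ⁅(FreeGroup.of 0) ^ p, (FreeGroup.of 1) ^ p⁆ (Set.mem_singleton _)
      (fun i => if i = 0 then x else y)
    rw [lift_lawP] at h1
    simp only [if_true, one_ne_zero, if_false] at h1
    exact commutatorElement_eq_one_iff_mul_comm.1 h1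
  · intro h w hw x
    rw [lawP, Set.mem_singleton_iff] at hw
    subst hw
    rw [lift_lawP]
    exact commutatorElement_eq_one_iff_mul_comm.2 (h _ _)

/-- The subgroup generated by all `p`-th powers. -/
def powN (p : ℕ) (G : Type) [Group G] : Subgroup G := Subgroup.closure {g | ∃ f : G, f ^ p = g}

instance powN_normal (p : ℕ) (G : Type) [Group G] : (powN p G).Normal := by
  constructor
  intro n hn g
  unfold powN at hn ⊢
  induction hn using Subgroup.closure_induction with
  | mem y hy =>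
    obtain ⟨f, rfl⟩ := hy
    refine Subgroup.subset_closure ⟨g * f * g⁻¹, ?_⟩
    rw [conj_pow]
  | one => simp
  | mul a b _ _ ha hb =>
    have : g * (a * b) * g⁻¹ = (g * a * g⁻¹) * (g * b * g⁻¹) := by group
    rw [this]
    exact Subgroup.mul_mem _ ha hb
  | inv a _ ha =>
    have : g * a⁻¹ * g⁻¹ = (g * a * g⁻¹)⁻¹ := by group
    rw [this]
    exact Subgroup.inv_mem _ ha

theorem pow_mem_powN (p : ℕ) {G : Type} [Group G] (f : G) : f ^ p ∈ powN p G :=
  Subgroup.subset_closure ⟨f, rfl⟩

theorem verbal_lawP (p : ℕ) (G : Type) [Group G] :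
    verbal (lawP p) G = ⁅powN p G, powN p G⁆ := by
  apply le_antisymm
  · unfold verbal
    rw [Subgroup.closure_le]
    rintro g ⟨w, hw, x, rfl⟩
    rw [lawP, Set.mem_singleton_iff] at hw
    subst hw
    rw [lift_lawP]
    exact Subgroup.commutator_mem_commutator (pow_mem_powN p _) (pow_mem_powN p _)
  · rw [Subgroup.commutator_le]
    intro g hg h hh
    have key : ∀ a b : G, ⁅a ^ p, b ^ p⁆ ∈ verbal (lawP p) G := by
      intro a b
      refine Subgroup.subset_closure ⟨_, Set.mem_singleton _, fun i => if i = 0 then a else b, ?_⟩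
      rw [lift_lawP]
      simp
    rw [← QuotientGroup.eq_one_iff, commutatorElement_def, QuotientGroup.mk_mul,
      QuotientGroup.mk_mul, QuotientGroup.mk_mul, QuotientGroup.mk_inv, QuotientGroup.mk_inv,
      ← commutatorElement_def, commutatorElement_eq_one_iff_mul_comm]
    have hcomm : ∀ a b : G, ((QuotientGroup.mk (a ^ p) : G ⧸ verbal (lawP p) G)) *
        QuotientGroup.mk (b ^ p) = QuotientGroup.mk (b ^ p) * QuotientGroup.mk (a ^ p) := by
      intro a b
      rw [← commutatorElement_eq_one_iff_mul_comm, commutatorElement_def, ← QuotientGroup.mk_inv,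
        ← QuotientGroup.mk_inv, ← QuotientGroup.mk_mul, ← QuotientGroup.mk_mul,
        ← QuotientGroup.mk_mul, ← commutatorElement_def, QuotientGroup.eq_one_iff]
      exact key a b
    unfold powN at hg hh
    induction hg using Subgroup.closure_induction with
    | mem y hy =>
      obtain ⟨f, rfl⟩ := hy
      induction hh using Subgroup.closure_induction with
      | mem z hz =>
        obtain ⟨f', rfl⟩ := hz
        exact hcomm f f'
      | one => simp
      | mul a b _ _ ha hb =>
        rw [QuotientGroup.mk_mul, ← mul_assoc, ha, mul_assoc, hb, mul_assoc]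
      | inv a _ ha =>
        rw [QuotientGroup.mk_inv]
        exact (Commute.inv_right (a := (QuotientGroup.mk (f ^ p) : G ⧸ verbal (lawP p) G)) ha)
    | one => simp
    | mul a b _ _ ha hb =>
      rw [QuotientGroup.mk_mul, mul_assoc, hb, ← mul_assoc, ha, mul_assoc]
    | inv a _ ha =>
      rw [QuotientGroup.mk_inv]
      exact (Commute.inv_left (b := (QuotientGroup.mk h : G ⧸ verbal (lawP p) G)) ha)

/-- The Heisenberg group over a commutative ring. -/
@[ext] structure Heis (R : Type) where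
  a : R
  b : R
  c : R

section Heis

variable {R : Type} [CommRing R]

instance : Mul (Heis R) := ⟨fun x y => ⟨x.a + y.a, x.b + y.b, x.c + y.c + x.a * y.b⟩⟩
instance : One (Heis R) := ⟨⟨0, 0, 0⟩⟩
instance : Inv (Heis R) := ⟨fun x => ⟨-x.a, -x.b, -x.c + x.a * x.b⟩⟩

theorem Heis.mul_def (x y : Heis R) :
    x * y = ⟨x.a + y.a, x.b + y.b, x.c + y.c + x.a * y.b⟩ := rfl
theorem Heis.one_def : (1 : Heis R) = ⟨0, 0, 0⟩ := rfl
theorem Heis.inv_def (x : Heis R) : x⁻¹ = ⟨-x.a, -x.b, -x.c + x.a * x.b⟩ := rfl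

instance : Group (Heis R) := Group.ofLeftAxioms
  (by
    intro x y z
    simp only [Heis.mul_def]
    ext <;> (simp only; ring))
  (by
    intro x
    simp only [Heis.mul_def, Heis.one_def]
    ext <;> simp)
  (by
    intro x
    simp only [Heis.mul_def, Heis.one_def, Heis.inv_def]
    ext <;> simp)

theorem Heis.pow_ab (x : Heis R) (n : ℕ) : (x ^ n).a = n * x.a ∧ (x ^ n).b = n * x.b := by
  induction n with
  | zero => simp [Heis.one_def]
  | succ n ih =>
    rw [pow_succ, Heis.mul_def]
    simp only [ih.1, ih.2]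
    constructor <;> push_cast <;> ring

theorem heis_zmod_sat (p : ℕ) [Fact p.Prime] : Sat (lawP p) (Heis (ZMod p)) := by
  rw [sat_lawP_iff]
  intro x y
  have hx := Heis.pow_ab x p
  have hy := Heis.pow_ab y p
  simp only [CharP.cast_eq_zero, zero_mul] at hx hy
  rw [Heis.mul_def, Heis.mul_def, hx.1, hx.2, hy.1, hy.2]
  ext <;> simp only <;> ring

theorem heis_zmod_not_comm (p : ℕ) [Fact p.Prime] :
    ∃ x y : Heis (ZMod p), x * y ≠ y * x := by
  refine ⟨⟨1, 0, 0⟩, ⟨0, 1, 0⟩, fun h => ?_⟩
  have := congrArg Heis.c h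
  simp [Heis.mul_def] at this

theorem heis_int_not_sat (p : ℕ) (hp : p ≠ 0) : ¬ Sat (lawP p) (Heis ℤ) := by
  rw [sat_lawP_iff]
  intro h
  have h1 : ∀ n : ℕ, (⟨1, 0, 0⟩ : Heis ℤ) ^ n = ⟨n, 0, 0⟩ := by
    intro n
    induction n with
    | zero => simp [Heis.one_def]
    | succ n ih =>
      rw [pow_succ, ih, Heis.mul_def]
      simp
  have h2 : ∀ n : ℕ, (⟨0, 1, 0⟩ : Heis ℤ) ^ n = ⟨0, n, 0⟩ := by
    intro n
    induction n with
    | zero => simp [Heis.one_def]
    | succ n ih =>
      rw [pow_succ, ih, Heis.mul_def]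
      simp
  have h3 := congrArg Heis.c (h ⟨1, 0, 0⟩ ⟨0, 1, 0⟩)
  rw [h1, h2, Heis.mul_def, Heis.mul_def] at h3
  simp [hp] at h3

end Heis

/-- **The final statement** (as a proposition): a proper non-abelian variety all of whose free
groups have torsion-free integral homology. -/
def Answer : Prop :=
  ∃ W : Set (FreeGroup ℕ),
    (∃ (G : Type) (_ : Group G), ¬ Sat W G) ∧
    (∃ (G : Type) (_ : Group G), Sat W G ∧ ∃ x y : G, x * y ≠ y * x) ∧
    ∀ (κ : Type) (n : ℕ), 1 ≤ n →
      ∀ (m : ℕ) (z : groupHomology (Rep.trivial ℤ (RelFree W κ) ℤ) n), m ≠ 0 → m • z = 0 → z = 0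

/-- reduction of the final statement -/
theorem answer_of {p : ℕ} [hp : Fact p.Prime]
    (h : ∀ (κ : Type) (n : ℕ), 1 ≤ n →
      ∀ (m : ℕ) (z : groupHomology (Rep.trivial ℤ
        (FreeGroup κ ⧸ ⁅powN p (FreeGroup κ), powN p (FreeGroup κ)⁆) ℤ) n),
        m ≠ 0 → m • z = 0 → z = 0) : Answer := by
  refine ⟨lawP p, ⟨Heis ℤ, inferInstance, heis_int_not_sat p hp.out.ne_zero⟩,
    ⟨Heis (ZMod p), inferInstance, heis_zmod_sat p, heis_zmod_not_comm p⟩, ?_⟩
  intro κ n hn m
  have key : ∀ (V : Subgroup (FreeGroup κ)) (_ : V.Normal),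
      V = ⁅powN p (FreeGroup κ), powN p (FreeGroup κ)⁆ →
      ∀ z : groupHomology (Rep.trivial ℤ (FreeGroup κ ⧸ V) ℤ) n, m ≠ 0 → m • z = 0 → z = 0 := by
    rintro V hV rfl
    exact h κ n hn m
  exact key _ _ (verbal_lawP p _)

end W3ab0ed.Laws
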