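import Pool.Agent.W_MP_3ab0ed_h43.Step
import Pool.Agent.W_MP_3ab0ed_h43.Laws

/-!
MP_3ab0ed_al, piece P5 (algebraic half).  The limit of a sequence of steps: from a sequence of
geometric steps one gets a relation basis of the subgroup generated by all `p`-th powers.
-/

set_option linter.unusedSectionVars false

namespace W3ab0ed.Rel

open Finsupp Laws

section Lim

variable {κ : Type} {I : Type} {a : I → FreeGroup κ} {p : ℕ}

theorem psi_compat {N N' N'' : Subgroup (FreeGroup κ)} [N.Normal] [N'.Normal] [N''.Normal]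
    {I1 I2 I3 : Type} {a1 : I1 → FreeGroup κ} {a2 : I2 → FreeGroup κ} {a3 : I3 → FreeGroup κ}
    (H1 : RB N a1 p) (H2 : RB N' a2 p) (h12 : N ≤ N') (h23 : N' ≤ N'') (h13 : N ≤ N'')
    (e12 : I1 → I2) (he12 : ∀ i, a2 (e12 i) = a1 i) (e23 : I2 → I3)
    (he23 : ∀ i, a3 (e23 i) = a2 i) (e13 : I1 → I3) (he13 : ∀ i, a3 (e13 i) = a1 i)
    (hc : ∀ i, e23 (e12 i) = e13 i) (v : Nab N) :
    H2.psi h23 e23 he23 (inc h12 v) = H1.psi h13 e13 he13 v := by
  obtain ⟨u, rfl⟩ := H1.Th_surj v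
  rw [inc_Th h12 e12 he12 H1.mem H2.mem, H2.psi_Th, H1.psi_Th]
  induction u using Finsupp.induction_linear with
  | zero => simp
  | add u v hu hv => rw [map_add, map_add, map_add, hu, hv]
  | single x m =>
    obtain ⟨i, q, rfl⟩ := exists_pt N a1 x
    simp only [Finsupp.lmapDomain_apply, Finsupp.mapDomain_single, mp_pt, hc]

/-- the union of an increasing sequence of subgroups with relation bases has a relation basis -/
theorem RB.lim (Ns : ℕ → Subgroup (FreeGroup κ)) [hNs : ∀ n, (Ns n).Normal] (hm : Monotone Ns)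
    (lev : I → ℕ) (H : ∀ n, RB (Ns n) (fun i : {i // lev i < n} => a i) p)
    (N : Subgroup (FreeGroup κ)) [hN : N.Normal] (hmem : ∀ f, f ∈ N ↔ ∃ n, f ∈ Ns n) :
    RB N a p := by
  have hle : ∀ n, Ns n ≤ N := fun n f hf => (hmem f).2 ⟨n, hf⟩
  have ha : ∀ i, a i ^ p ∈ N := fun i =>
    hle (lev i + 1) ((H (lev i + 1)).mem ⟨i, Nat.lt_succ_self _⟩)
  refine ⟨ha, ?_⟩
  have hinc : ∀ {k l : ℕ} (hkl : k ≤ l) (v : Nab (Ns k)),
      (H l).psi (a' := a) (hle l) Subtype.val (fun _ => rfl) (inc (hm hkl) v) =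
        (H k).psi (a' := a) (hle k) Subtype.val (fun _ => rfl) v := by
    intro k l hkl v
    exact psi_compat (H k) (H l) (hm hkl) (hle l) (hle k)
      (fun i => ⟨i.1, lt_of_lt_of_le i.2 hkl⟩) (fun _ => rfl) Subtype.val (fun _ => rfl)
      Subtype.val (fun _ => rfl) (fun _ => rfl) v
  choose lv hlv using fun n : N => (hmem n).1 n.2
  have hind : ∀ (n : N) (l : ℕ) (hl : (n : FreeGroup κ) ∈ Ns l),
      (H (lv n)).psi (a' := a) (hle _) Subtype.val (fun _ => rfl) (nab (Ns (lv n)) ⟨n, hlv n⟩) =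
      (H l).psi (a' := a) (hle _) Subtype.val (fun _ => rfl) (nab (Ns l) ⟨n, hl⟩) := by
    intro n l hl
    rw [← hinc (le_max_left (lv n) l), ← hinc (le_max_right (lv n) l)]
    rfl
  let Ψ : N →* Multiplicative (Pt N a →₀ ℤ) := MonoidHom.mk' (fun n => Multiplicative.ofAdd
    ((H (lv n)).psi (a' := a) (hle _) Subtype.val (fun _ => rfl) (nab (Ns (lv n)) ⟨n, hlv n⟩))) (by
    intro m n
    obtain ⟨l, h1, h2⟩ : ∃ l, (m : FreeGroup κ) ∈ Ns l ∧ (n : FreeGroup κ) ∈ Ns l :=
      ⟨max (lv m) (lv n), hm (le_max_left _ _) (hlv m), hm (le_max_right _ _) (hlv n)⟩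
    rw [hind m l h1, hind n l h2, hind (m * n) l (Subgroup.mul_mem _ h1 h2), ← ofAdd_add,
      ← map_add, ← nab_mul]
    rfl)
  let ψ : Nab N →+ (Pt N a →₀ ℤ) := MonoidHom.toAdditive (Abelianization.lift Ψ)
  have hψ : ∀ (n : N) (l : ℕ) (hl : (n : FreeGroup κ) ∈ Ns l), ψ (nab N n) =
      (H l).psi (a' := a) (hle _) Subtype.val (fun _ => rfl) (nab (Ns l) ⟨n, hl⟩) :=
    fun n l hl => (hind n l hl)
  have hleft : ∀ u, ψ (Th ha u) = u := by
    intro u
    induction u using Finsupp.induction_linear with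
    | zero => simp
    | add u v hu hv => rw [map_add, map_add, hu, hv]
    | single x m =>
      obtain ⟨i, q, rfl⟩ := exists_pt N a x
      rw [Th_pt, map_zsmul]
      have hl : ((relE ha i q : N) : FreeGroup κ) ∈ Ns (lev i + 1) :=
        (hNs _).conj_mem _ ((H (lev i + 1)).mem ⟨i, Nat.lt_succ_self _⟩) q
      rw [hψ _ _ hl]
      have h1 : nab (Ns (lev i + 1)) ⟨_, hl⟩ = Th (H (lev i + 1)).mem
          (single (pt (Ns (lev i + 1)) (fun i' : {i' // lev i' < lev i + 1} => a i')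
            ⟨i, Nat.lt_succ_self _⟩ q) 1) := by
        rw [Th_pt, one_smul]
        rfl
      rw [h1, (H (lev i + 1)).psi_Th, Finsupp.lmapDomain_apply, Finsupp.mapDomain_single,
        smul_single, smul_eq_mul, mul_one]
      rfl
  refine ⟨fun u v h => by rw [← hleft u, ← hleft v, h], fun v => ?_⟩
  obtain ⟨n, rfl⟩ := nab_surj N v
  obtain ⟨k, hk⟩ := (hmem n).1 n.2
  obtain ⟨u, hu⟩ := (H k).Th_surj (nab (Ns k) ⟨n, hk⟩)
  refine ⟨Finsupp.lmapDomain ℤ ℤ (mp (a' := a) (hle k) Subtype.val (fun _ => rfl)) u, ?_⟩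
  rw [← inc_Th (hle k) Subtype.val (fun _ => rfl) (H k).mem ha, hu]
  rfl

/-- the trivial subgroup has the empty relation basis -/
theorem RB.bot [IsEmpty I] : RB (⊥ : Subgroup (FreeGroup κ)) a p := by
  refine ⟨fun i => isEmptyElim i, ?_⟩
  have h1 : Subsingleton (Nab (⊥ : Subgroup (FreeGroup κ))) := by
    constructor
    intro v w
    obtain ⟨m, rfl⟩ := nab_surj _ v
    obtain ⟨n, rfl⟩ := nab_surj _ w
    rw [Subsingleton.elim m n]
  have h2 : IsEmpty (Pt (⊥ : Subgroup (FreeGroup κ)) a) := ⟨fun x => isEmptyElim x.1⟩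
  exact ⟨fun u v _ => Subsingleton.elim _ _, fun v => ⟨0, Subsingleton.elim _ _⟩⟩

theorem StepFree.le_powN {N N' : Subgroup (FreeGroup κ)} [N.Normal] [N'.Normal] {J : Type}
    {b : J → FreeGroup κ} (S : StepFree N N' b p) (h : N ≤ powN p (FreeGroup κ)) :
    N' ≤ powN p (FreeGroup κ) := by
  obtain ⟨hle, hmem, r, hr, hinj, hsurj⟩ := S
  intro n hn
  obtain ⟨w, hw⟩ := hsurj n hn
  let σ : FreeGroup (Pt N' b) →* FreeGroup κ :=
    FreeGroup.lift fun x => r x * b x.1 ^ p * (r x)⁻¹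
  have h1 : (QuotientGroup.mk (σ w) : FreeGroup κ ⧸ N) = QuotientGroup.mk n := by
    rw [← hw]
    have h : (QuotientGroup.mk' N).comp σ = FreeGroup.lift
        (fun x : Pt N' b => (QuotientGroup.mk (r x * b x.1 ^ p * (r x)⁻¹) : FreeGroup κ ⧸ N)) := by
      ext x
      simp [σ]
    exact DFunLike.congr_fun h w
  have h2 : ∀ w, σ w ∈ powN p (FreeGroup κ) := by
    intro w
    induction w using FreeGroup.induction_on with
    | C1 => simp
    | of x =>
      simp only [σ, FreeGroup.lift_apply_of]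
      exact (powN_normal p _).conj_mem _ (pow_mem_powN p _) _
    | inv_of x hx =>
      simp only [σ, map_inv, FreeGroup.lift_apply_of]
      exact Subgroup.inv_mem _ ((powN_normal p _).conj_mem _ (pow_mem_powN p _) _)
    | mul x y hx hy =>
      rw [map_mul]
      exact Subgroup.mul_mem _ hx hy
  have h3 : (σ w)⁻¹ * n ∈ N := QuotientGroup.eq.1 h1
  have h4 : n = σ w * ((σ w)⁻¹ * n) := by group
  rw [h4]
  exact Subgroup.mul_mem _ (h2 w) (h h3)

end Lim

section Iter

variable {κ : Type} {p : ℕ}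

/-- the map used in the induction -/
def sumSubFun (J : ℕ → Type) (n : ℕ) :
    {i : (Σ n, J n) // i.1 < n} ⊕ J n → {i : (Σ n, J n) // i.1 < n + 1} :=
  Sum.elim (fun i => ⟨i.1, lt_trans i.2 (Nat.lt_succ_self _)⟩)
    (fun j => ⟨⟨n, j⟩, Nat.lt_succ_self _⟩)

theorem sumSubFun_bij (J : ℕ → Type) (n : ℕ) : Function.Bijective (sumSubFun J n) := by
  constructor
  · rintro (⟨⟨k, j⟩, hk⟩ | j) (⟨⟨k', j'⟩, hk'⟩ | j') h
    · have h1 := congrArg Subtype.val h
      simp only [sumSubFun, Sum.elim_inl] at h1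
      simp only [h1]
    · have h1 := congrArg (fun x => x.1.1) h
      simp only [sumSubFun, Sum.elim_inl, Sum.elim_inr] at h1
      simp only at hk
      omega
    · have h1 := congrArg (fun x => x.1.1) h
      simp only [sumSubFun, Sum.elim_inl, Sum.elim_inr] at h1
      simp only at hk'
      omega
    · have h1 := congrArg Subtype.val h
      simp only [sumSubFun, Sum.elim_inr, Sigma.mk.injEq, heq_eq_eq, true_and] at h1
      rw [h1]
  · rintro ⟨⟨k, j⟩, hk⟩
    rcases Nat.lt_succ_iff_lt_or_eq.1 hk with h | h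
    · exact ⟨Sum.inl ⟨⟨k, j⟩, h⟩, rfl⟩
    · simp only at h
      subst h
      exact ⟨Sum.inr j, rfl⟩

/-- the equivalence used in the induction -/
noncomputable def sumSub (J : ℕ → Type) (n : ℕ) :
    {i : (Σ n, J n) // i.1 < n} ⊕ J n ≃ {i : (Σ n, J n) // i.1 < n + 1} :=
  Equiv.ofBijective _ (sumSubFun_bij J n)

/-- **Iteration of the geometric step.** -/
theorem exists_relBasis (P : ℕ → Subgroup (FreeGroup κ) → Prop) (h0 : P 0 ⊥)
    (hstep : ∀ (n : ℕ) (N : Subgroup (FreeGroup κ)) (_ : N.Normal), P n N →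
      ∃ (N' : Subgroup (FreeGroup κ)) (_ : N'.Normal) (J : Type) (b : J → FreeGroup κ),
        StepFree N N' b p ∧ P (n + 1) N')
    (hexp : ∀ f : FreeGroup κ, ∃ n, ∀ N, P n N → f ^ p ∈ N) :
    ∃ (I : Type) (a : I → FreeGroup κ), RelBasis (powN p (FreeGroup κ)) a p := by
  let St : ℕ → Type := fun n => {N : Subgroup (FreeGroup κ) // N.Normal ∧ P n N}
  choose nx hnx J b hS hP using hstep
  let s : ∀ n, St n := fun n => Nat.rec ⟨⊥, inferInstance, h0⟩
    (fun n N => ⟨nx n N.1 N.2.1 N.2.2, hnx n N.1 N.2.1 N.2.2, hP n N.1 N.2.1 N.2.2⟩) n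
  let Ns : ℕ → Subgroup (FreeGroup κ) := fun n => (s n).1
  have hNs : ∀ n, (Ns n).Normal := fun n => (s n).2.1
  have hPn : ∀ n, P n (Ns n) := fun n => (s n).2.2
  let Jn : ℕ → Type := fun n => J n (s n).1 (s n).2.1 (s n).2.2
  let bn : ∀ n, Jn n → FreeGroup κ := fun n => b n (s n).1 (s n).2.1 (s n).2.2
  have hSn : ∀ n, StepFree (Ns n) (Ns (n + 1)) (bn n) p :=
    fun n => hS n (s n).1 (s n).2.1 (s n).2.2
  have hmono : Monotone Ns := monotone_nat_of_le_succ fun n => (hSn n).le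
  let a : (Σ n, Jn n) → FreeGroup κ := fun x => bn x.1 x.2
  have hRB : ∀ n, RB (Ns n) (fun i : {i : (Σ n, Jn n) // i.1 < n} => a i) p := by
    intro n
    induction n with
    | zero =>
      have : IsEmpty {i : (Σ n, Jn n) // i.1 < 0} := ⟨fun i => absurd i.2 (Nat.not_lt_zero _)⟩
      exact RB.bot
    | succ n ih =>
      refine (step_aux ih (hSn n)).reindex (sumSub Jn n) ?_
      rintro (i | j) <;> rfl
  have hlp : ∀ n, Ns n ≤ powN p (FreeGroup κ) := by
    intro n
    induction n with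
    | zero => exact bot_le
    | succ n ih => exact (hSn n).le_powN ih
  have hmem : ∀ f, f ∈ powN p (FreeGroup κ) ↔ ∃ n, f ∈ Ns n := by
    intro f
    constructor
    · intro hf
      unfold powN at hf
      induction hf using Subgroup.closure_induction with
      | mem y hy =>
        obtain ⟨g, rfl⟩ := hy
        obtain ⟨n, hn⟩ := hexp g
        exact ⟨n, hn _ (hPn n)⟩
      | one => exact ⟨0, Subgroup.one_mem _⟩
      | mul x y _ _ hx hy =>
        obtain ⟨m, hm⟩ := hx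
        obtain ⟨n, hn⟩ := hy
        exact ⟨max m n, Subgroup.mul_mem _ (hmono (le_max_left _ _) hm)
          (hmono (le_max_right _ _) hn)⟩
      | inv x _ hx =>
        obtain ⟨m, hm⟩ := hx
        exact ⟨m, Subgroup.inv_mem _ hm⟩
    · rintro ⟨n, hn⟩
      exact hlp n hn
  exact ⟨_, a, (RB.lim Ns hmono Sigma.fst hRB (powN p (FreeGroup κ)) hmem).relBasis
    (fun f => pow_mem_powN p f)⟩

end Iter

end W3ab0ed.Rel
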