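import Pool.Agent.W_MP_3ab0ed_h43.Data
import Pool.Agent.W_MP_3ab0ed_h43.Lim
import Pool.Agent.W_MP_3ab0ed_h43.Apex
import Pool.Agent.W_MP_3ab0ed_h44.Assemble
import Pool.Agent.W_MP_3ab0ed_h30.TFEnd

/-!
MP_3ab0ed_al.  Assembly: the answer from the relation basis of the subgroup generated by all `p`-th powers.
-/

namespace W3ab0ed.Rel

open Laws

theorem answer_of_relBasis {p : ℕ} [Fact p.Prime] (hodd : p ≠ 2)
    (hB : ∀ κ : Type, ∃ (I : Type) (a : I → FreeGroup κ), RelBasis (powN p (FreeGroup κ)) a p) :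
    Answer := by
  refine answer_of (p := p) ?_
  intro κ n hn m z hm hz
  obtain ⟨I, a, H⟩ := hB κ
  obtain ⟨n, rfl⟩ : ∃ n', n = n' + 1 := ⟨n - 1, by omega⟩
  exact (H.good hodd).torsionFree TF.tf n m hm z hz

/-- The same, from a sequence of geometric steps for every free group. -/
theorem answer_of_steps {p : ℕ} [Fact p.Prime] (hodd : p ≠ 2)
    (hgeo : ∀ κ : Type, ∃ P : ℕ → Subgroup (FreeGroup κ) → Prop, P 0 ⊥ ∧
      (∀ (n : ℕ) (N : Subgroup (FreeGroup κ)) (_ : N.Normal), P n N →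
        ∃ (N' : Subgroup (FreeGroup κ)) (_ : N'.Normal) (J : Type) (b : J → FreeGroup κ),
          StepFree N N' b p ∧ P (n + 1) N') ∧
      ∀ f : FreeGroup κ, ∃ n, ∀ N, P n N → f ^ p ∈ N) : Answer :=
  answer_of_relBasis hodd fun κ => by
    obtain ⟨P, h0, h1, h2⟩ := hgeo κ
    exact exists_relBasis P h0 h1 h2

end W3ab0ed.Rel
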