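import Pool.Agent.W_MP_3ab0ed_h43.Gc

/-!
Homology part of MP_3ab0ed_al, block REL.  Every element outside `N` fixes exactly one point.
-/

set_option linter.unusedSectionVars false

namespace W3ab0ed.Rel

open Finsupp

section Fix

variable {κ : Type} (N : Subgroup (FreeGroup κ)) [hN : N.Normal] {I : Type} (a : I → FreeGroup κ)

/-- left multiplication by an element of `B` as a permutation -/
def bPerm (b : BB N) : Equiv.Perm (BB N) := Equiv.mulLeft b

theorem lm_eq_pop (b : BB N) (v : ZB N) : lm N b v = pop (bPerm N b) v := rfl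

theorem bPerm_pow (b : BB N) (j : ℕ) : bPerm N b ^ j = bPerm N (b ^ j) := by
  ext1 c
  induction j generalizing c with
  | zero => simp [bPerm]
  | succ j ih =>
    rw [pow_succ, Equiv.Perm.mul_apply, ih, pow_succ]
    simp [bPerm]

/-- the norm operator on the free module -/
noncomputable def nk (p : ℕ) (b : BB N) : ZBk N →ₗ[ℤ] ZBk N :=
  ∑ j ∈ Finset.range p, lk N (b ^ j)

theorem nk_apply (p : ℕ) (b : BB N) (v : ZBk N) :
    nk N p b v = ∑ j ∈ Finset.range p, lk N (b ^ j) v := by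
  simp [nk]

theorem nk_single (p : ℕ) (b : BB N) (s : κ) (v : ZB N) :
    nk N p b (single s v) = single s (nrm p (bPerm N b) v) := by
  rw [nk_apply, nrm_apply]
  simp only [lk_single, bPerm_pow, lm_eq_pop]
  exact (map_sum (Finsupp.singleAddHom s) _ _).symm

theorem fox_pow (f : FreeGroup κ) (j : ℕ) :
    fox N (f ^ j) = ∑ i ∈ Finset.range j, lk N ((QuotientGroup.mk f : BB N) ^ i) (fox N f) := by
  induction j with
  | zero => simp
  | succ j ih => rw [pow_succ, fox_mul, ih, Finset.sum_range_succ, QuotientGroup.mk_pow]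

theorem fox_pow_eq (f : FreeGroup κ) (p : ℕ) :
    fox N (f ^ p) = nk N p (QuotientGroup.mk f) (fox N f) := by
  rw [fox_pow, nk_apply]

variable {p : ℕ} [hp : Fact p.Prime]

theorem nk_kernel {b : BB N} (hb : b ^ p = 1) (hb1 : b ≠ 1) {v : ZBk N} (hv : nk N p b v = 0) :
    ∃ w, v = lk N b w - w := by
  have hτ : bPerm N b ^ p = 1 := by
    rw [bPerm_pow, hb]
    ext1 c
    simp [bPerm]
  have hfix : ∀ c, bPerm N b c ≠ c := by
    intro c hc
    apply hb1
    have : b * c = c := hc
    exact mul_eq_right.1 this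
  -- work in each coordinate
  let S : ZBk N →ₗ[ℤ] ZBk N := Finsupp.mapRange.linearMap (psum p (bPerm N b))
  let Rh : ZBk N →ₗ[ℤ] ZBk N := Finsupp.mapRange.linearMap (rho (bPerm N b))
  have key : ∀ v : ZBk N, v = (lk N b (S v) - S v) + Rh (nk N p b v) := by
    intro v
    induction v using Finsupp.induction_linear with
    | zero => simp
    | add f g hf hg =>
      simp only [map_add]
      nth_rewrite 1 [hf]
      nth_rewrite 1 [hg]
      abel
    | single s c =>
      have h1 := eq_diff_add p (bPerm N b) hτ hfix c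
      have e1 : S (single s c) = single s (psum p (bPerm N b) c) := by
        simp [S]
      have e2 : ∀ d, Rh (single s d) = single s (rho (bPerm N b) d) := by
        intro d
        simp [Rh]
      rw [nk_single, e1, e2, lk_single, ← Finsupp.single_sub, ← Finsupp.single_add]
      congr 1
  refine ⟨S v, ?_⟩
  have := key v
  rw [hv, map_zero, add_zero] at this
  exact this

/-- No element outside `N` has a `p`-th power with vanishing Fox derivative. -/
theorem fox_pow_ne {h : FreeGroup κ} (hh : h ∉ N) (hp1 : h ^ p ∈ N) : fox N (h ^ p) ≠ 0 := by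
  intro h0
  have hb1 : (QuotientGroup.mk h : BB N) ≠ 1 := fun h1 => hh ((QuotientGroup.eq_one_iff h).1 h1)
  have hb : (QuotientGroup.mk h : BB N) ^ p = 1 := by
    rw [← QuotientGroup.mk_pow]
    exact (QuotientGroup.eq_one_iff _).2 hp1
  rw [fox_pow_eq] at h0
  obtain ⟨v, hv⟩ := nk_kernel N hb hb1 h0
  have h2 := congrArg (bd N) hv
  rw [bd_fox, map_sub, bd_lk] at h2
  have h3 : pop (bPerm N (QuotientGroup.mk h)) (bd N v - single 1 1) = bd N v - single 1 1 := by
    rw [map_sub, ← lm_eq_pop, ← lm_eq_pop, lm_single, mul_one]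
    rw [eq_sub_iff_add_eq] at h2
    rw [← h2]
    abel
  have hτ : bPerm N (QuotientGroup.mk h) ^ p = 1 := by
    rw [bPerm_pow, hb]
    ext1 c
    simp [bPerm]
  have hfix : ∀ c, bPerm N (QuotientGroup.mk h) c ≠ c := by
    intro c hc
    apply hb1
    have : (QuotientGroup.mk h : BB N) * c = c := hc
    exact mul_eq_right.1 this
  obtain ⟨w, hw⟩ := exists_of_pop_eq p _ hτ hfix h3
  have h4 := congrArg (aug N) hw
  have h5 : ∀ w : ZB N, aug N (nrm p (bPerm N (QuotientGroup.mk h)) w) = p * aug N w := by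
    intro w
    rw [nrm_apply, map_sum]
    have : ∀ j ∈ Finset.range p, aug N (pop (bPerm N (QuotientGroup.mk h) ^ j) w) = aug N w := by
      intro j _
      rw [bPerm_pow, ← lm_eq_pop, aug_lm]
    rw [Finset.sum_congr rfl this]
    simp
  rw [map_sub, aug_bd, aug_single, h5] at h4
  have h6 : (p : ℤ) ∣ 1 := ⟨- aug N w, by linarith⟩
  have h7 : p ∣ 1 := by exact_mod_cast h6
  exact hp.out.one_lt.ne' (Nat.dvd_one.1 h7)

variable {N a}
variable (H : RelBasis N a p)

theorem ptPerm_pow_p (f : FreeGroup κ) : ptPerm N a f ^ p = 1 ∨ ¬ (f ^ p ∈ N) := by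
  by_cases h : f ^ p ∈ N
  · left
    rw [ptPerm_pow]
    ext1 x
    exact smul_of_mem N a h x
  · exact Or.inr h

include H in
theorem RelBasis.ptPerm_pow_eq (f : FreeGroup κ) : ptPerm N a f ^ p = 1 := by
  rw [ptPerm_pow]
  ext1 x
  exact smul_of_mem N a (H.exp f) x

include H in
/-- the generators `a_i` are not in `N` -/
theorem RelBasis.a_not_mem (i : I) : a i ∉ N := by
  intro hi
  have h1 : relVec N a H.exp (pt N a i 1) = p • nab N ⟨a i, hi⟩ := by
    rw [relVec_pt, ← nab_pow]
    congr 1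
    apply Subtype.ext
    simp [relElt]
  have h2 := congrArg H.co h1
  rw [H.co_relVec, ← natCast_zsmul, H.co_smul] at h2
  have h3 := DFunLike.congr_fun h2 (pt N a i 1)
  rw [Finsupp.single_eq_same, Finsupp.smul_apply, smul_eq_mul] at h3
  have h6 : (p : ℤ) ∣ 1 := ⟨_, h3⟩
  have h7 : p ∣ 1 := by exact_mod_cast h6
  exact hp.out.one_lt.ne' (Nat.dvd_one.1 h7)

include H in
/-- powers of `a_i` in `N` -/
theorem RelBasis.zpow_mem_iff (i : I) (k : ℤ) : a i ^ k ∈ N ↔ (p : ℤ) ∣ k := by
  constructor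
  · intro hk
    by_contra hcon
    have hcop : IsCoprime (p : ℤ) k := by
      rw [Prime.coprime_iff_not_dvd (Nat.prime_iff_prime_int.mp hp.out)]
      exact hcon
    obtain ⟨u, v, huv⟩ := hcop
    apply H.a_not_mem i
    have : a i = (a i ^ p) ^ u * (a i ^ k) ^ v := by
      rw [← zpow_natCast, ← zpow_mul, ← zpow_mul, ← zpow_add, mul_comm (p : ℤ) u, mul_comm k v, huv,
        zpow_one]
    rw [this]
    exact N.mul_mem (N.zpow_mem (H.exp _) _) (N.zpow_mem hk _)
  · rintro ⟨c, rfl⟩
    rw [zpow_mul, zpow_natCast]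
    exact N.zpow_mem (H.exp _) _

/-- the coefficient of the class of the `p`-th power at the fixed point -/
theorem RelBasis.coeff_fixed {f : FreeGroup κ} (hf : f ∉ N) {x : Pt N a} (hx : f • x = x) :
    ∃ (m : Pt N a →₀ ℤ) (k : ℤ), ¬ (p : ℤ) ∣ k ∧
      H.co (nab N ⟨f ^ p, H.exp f⟩) = nrm p (ptPerm N a f) m + single x k := by
  obtain ⟨i, q, rfl⟩ := exists_pt N a x
  rw [smul_pt] at hx
  obtain ⟨n, hn, k, hk⟩ := (pt_eq_iff N a).1 hx.symm
  -- f = n * u with u = q a^k q⁻¹
  set u : FreeGroup κ := q * a i ^ k * q⁻¹ with hu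
  have hfu : f = n * u := by
    rw [hu, ← mul_assoc, ← mul_assoc, ← hk]
    group
  have hbar : (QuotientGroup.mk f : BB N) = QuotientGroup.mk u := by
    rw [hfu, QuotientGroup.mk_mul, (QuotientGroup.eq_one_iff n).2 hn, one_mul]
  have hk' : ¬ (p : ℤ) ∣ k := by
    intro hdvd
    apply hf
    rw [hfu]
    exact N.mul_mem hn (hN.conj_mem _ ((H.zpow_mem_iff i k).2 hdvd) q)
  refine ⟨H.co (nab N ⟨n, hn⟩), k, hk', ?_⟩
  apply H.theta_injective
  rw [H.theta_co, foxN_nab, map_add]
  have e1 : H.theta (nrm p (ptPerm N a f) (H.co (nab N ⟨n, hn⟩))) =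
      nk N p (QuotientGroup.mk f) (fox N n) := by
    rw [nrm_apply, map_sum, nk_apply]
    refine Finset.sum_congr rfl fun j _ => ?_
    rw [ptPerm_pow, ← H.co_cj, H.theta_co, foxN_cj, foxN_nab, QuotientGroup.mk_pow]
  have e2 : H.theta (single (pt N a i q) k) = fox N (u ^ p) := by
    rw [single_eq_smul, map_zsmul, H.theta_single, one_smul, relVec_pt]
    have h3 : u ^ p = ((relElt N a H.exp i q ^ k : N) : FreeGroup κ) := by
      rw [Subgroup.coe_zpow]
      simp only [relElt]
      rw [hu, conj_pow, conj_zpow, ← zpow_natCast, ← zpow_natCast, ← zpow_mul, ← zpow_mul, mul_comm]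
    rw [h3, ← foxN_nab, ← map_zsmul]
    congr 1
  rw [e1, e2, fox_pow_eq, fox_pow_eq, ← hbar, ← map_add]
  congr 1
  rw [hfu, fox_mul_of_mem N hn]

include H in
/-- uniqueness of fixed points -/
theorem RelBasis.fixed_unique {f : FreeGroup κ} (hf : f ∉ N) {x y : Pt N a} (hx : f • x = x)
    (hy : f • y = y) : x = y := by
  by_contra hxy
  obtain ⟨m, k, hk, h1⟩ := H.coeff_fixed hf hx
  obtain ⟨m', k', hk', h2⟩ := H.coeff_fixed hf hy
  have h3 := DFunLike.congr_fun (h1.symm.trans h2) x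
  rw [Finsupp.add_apply, Finsupp.add_apply, Finsupp.single_eq_same,
    nrm_coeff_fixed p (ptPerm N a f) m hx, nrm_coeff_fixed p (ptPerm N a f) m' hx,
    Finsupp.single_eq_of_ne hxy, add_zero] at h3
  exact hk ⟨m' x - m x, by linarith⟩

include H in
/-- existence of fixed points -/
theorem RelBasis.exists_fixed {f : FreeGroup κ} (hf : f ∉ N) : ∃ x : Pt N a, f • x = x := by
  by_contra hcon
  push Not at hcon
  have hτ := H.ptPerm_pow_eq f
  have hinv : pop (ptPerm N a f) (H.co (nab N ⟨f ^ p, H.exp f⟩)) =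
      H.co (nab N ⟨f ^ p, H.exp f⟩) := by
    rw [← H.co_cj, cj_nab]
    congr 2
    apply Subtype.ext
    simp only
    rw [← pow_succ', pow_succ, mul_inv_cancel_right]
  obtain ⟨v, hv⟩ := exists_of_pop_eq p _ hτ hcon hinv
  obtain ⟨w, rfl⟩ := H.co_surj v
  obtain ⟨n, rfl⟩ := nab_surj N w
  have h1 : fox N (f ^ p) = nk N p (QuotientGroup.mk f) (fox N n) := by
    have h2 := congrArg H.theta hv
    rw [H.theta_co, foxN_nab] at h2
    rw [h2, nrm_apply, map_sum, nk_apply]
    refine Finset.sum_congr rfl fun j _ => ?_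
    rw [ptPerm_pow, ← H.co_cj, H.theta_co, foxN_cj, foxN_nab, QuotientGroup.mk_pow]
  have hn1 : (QuotientGroup.mk (n : FreeGroup κ) : BB N) = 1 :=
    (QuotientGroup.eq_one_iff (n : FreeGroup κ)).2 n.2
  have hnot : (n : FreeGroup κ)⁻¹ * f ∉ N := by
    intro h
    exact hf ((N.mul_mem_cancel_left (N.inv_mem n.2)).1 h)
  apply fox_pow_ne N hnot (H.exp _)
  rw [fox_pow_eq, QuotientGroup.mk_mul, QuotientGroup.mk_inv, hn1, inv_one, one_mul, fox_mul,
    QuotientGroup.mk_inv, hn1, inv_one, lk_one, fox_inv, hn1, inv_one, lk_one, map_add, map_neg,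
    ← h1, ← fox_pow_eq]
  simp

include H in
/-- **Every element outside `N` fixes exactly one point.** -/
theorem RelBasis.existsUnique_fixed {f : FreeGroup κ} (hf : f ∉ N) : ∃! x : Pt N a, f • x = x := by
  obtain ⟨x, hx⟩ := H.exists_fixed hf
  exact ⟨x, hx, fun y hy => H.fixed_unique hf hy hx⟩

include H in
theorem RelBasis.existsUnique_fixed_bAct {b : BB N} (hb : b ≠ 1) : ∃! x : Pt N a, bAct N a b x = x := by
  obtain ⟨f, rfl⟩ := QuotientGroup.mk_surjective b
  exact H.existsUnique_fixed fun h => hb ((QuotientGroup.eq_one_iff f).2 h)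

/-- the stabilizer of a point -/
theorem smul_pt_eq_iff (f : FreeGroup κ) (i : I) (q : FreeGroup κ) :
    f • pt N a i q = pt N a i q ↔ ∃ n ∈ N, ∃ k : ℤ, f = n * (q * a i ^ k * q⁻¹) := by
  rw [smul_pt, eq_comm, pt_eq_iff]
  constructor
  · rintro ⟨n, hn, k, h⟩
    refine ⟨n, hn, k, ?_⟩
    rw [← mul_assoc, ← mul_assoc, ← h]
    group
  · rintro ⟨n, hn, k, h⟩
    refine ⟨n, hn, k, ?_⟩
    rw [h]
    group

end Fix

end W3ab0ed.Rel
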