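import Mathlib

/-!
Homology part of MP_3ab0ed_al, block REL.  Fox calculus with values in the free module over the
group ring of a quotient `B = F / N` of a free group `F`, and exactness of the relation sequence
`0 → N/[N,N] → ℤ[B]^κ → ℤ[B] → ℤ → 0` by means of a set-theoretic section.
-/

set_option linter.unusedSectionVars false

namespace W3ab0ed.Rel

open Finsupp

section Fox

variable {κ : Type} (N : Subgroup (FreeGroup κ)) [N.Normal]

/-- the quotient group `B = F / N` -/
abbrev BB : Type := FreeGroup κ ⧸ N

/-- the group ring of `B`, as an additive group -/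
abbrev ZB : Type := BB N →₀ ℤ

/-- the free module on `κ` over the group ring of `B` -/
abbrev ZBk : Type := κ →₀ ZB N

/-- left multiplication by `b` on the group ring -/
noncomputable def lm (b : BB N) : ZB N →ₗ[ℤ] ZB N :=
  Finsupp.lmapDomain ℤ ℤ (fun b' => b * b')

/-- right multiplication by `b` on the group ring -/
noncomputable def rm (b : BB N) : ZB N →ₗ[ℤ] ZB N :=
  Finsupp.lmapDomain ℤ ℤ (fun b' => b' * b)

/-- left multiplication by `b` on the free module -/
noncomputable def lk (b : BB N) : ZBk N →ₗ[ℤ] ZBk N :=
  Finsupp.mapRange.linearMap (lm N b)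

@[simp] theorem lm_single (b b' : BB N) (m : ℤ) :
    lm N b (single b' m) = single (b * b') m := by
  simp [lm, Finsupp.mapDomain_single]

@[simp] theorem rm_single (b b' : BB N) (m : ℤ) :
    rm N b (single b' m) = single (b' * b) m := by
  simp [rm, Finsupp.mapDomain_single]

@[simp] theorem lk_single (b : BB N) (s : κ) (v : ZB N) :
    lk N b (single s v) = single s (lm N b v) := by
  simp [lk]

theorem lm_mul (b b' : BB N) (v : ZB N) : lm N (b * b') v = lm N b (lm N b' v) := by
  induction v using Finsupp.induction_linear with
  | zero => simp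
  | add f g hf hg => simp only [map_add, hf, hg]
  | single a m => simp [mul_assoc]

theorem lm_one (v : ZB N) : lm N 1 v = v := by
  induction v using Finsupp.induction_linear with
  | zero => simp
  | add f g hf hg => simp only [map_add, hf, hg]
  | single a m => simp

theorem lm_rm (b b' : BB N) (v : ZB N) : lm N b (rm N b' v) = rm N b' (lm N b v) := by
  induction v using Finsupp.induction_linear with
  | zero => simp
  | add f g hf hg => simp only [map_add, hf, hg]
  | single a m => simp [mul_assoc]

theorem lk_mul (b b' : BB N) (v : ZBk N) : lk N (b * b') v = lk N b (lk N b' v) := by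
  induction v using Finsupp.induction_linear with
  | zero => simp
  | add f g hf hg => simp only [map_add, hf, hg]
  | single a m => simp [lm_mul]

theorem lk_one (v : ZBk N) : lk N 1 v = v := by
  induction v using Finsupp.induction_linear with
  | zero => simp
  | add f g hf hg => simp only [map_add, hf, hg]
  | single a m => simp [lm_one]

/-- the class of a free generator in `B` -/
abbrev gen (s : κ) : BB N := QuotientGroup.mk (FreeGroup.of s)

/-- the boundary map `e_s ↦ s - 1` -/
noncomputable def bd : ZBk N →ₗ[ℤ] ZB N :=
  Finsupp.lsum ℤ (fun s => rm N (gen N s) - LinearMap.id)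

@[simp] theorem bd_single (s : κ) (v : ZB N) : bd N (single s v) = rm N (gen N s) v - v := by
  simp [bd]

theorem bd_lk (b : BB N) (v : ZBk N) : bd N (lk N b v) = lm N b (bd N v) := by
  induction v using Finsupp.induction_linear with
  | zero => simp
  | add f g hf hg => simp only [map_add, hf, hg]
  | single a m => simp [lm_rm]

/-- the affine permutation of the free module attached to a generator -/
noncomputable def affPerm (s : κ) : Equiv.Perm (ZBk N) where
  toFun v := lk N (gen N s) v + single s (single 1 1)
  invFun v := lk N (gen N s)⁻¹ (v - single s (single 1 1))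
  left_inv v := by
    simp only [add_sub_cancel_right]
    rw [← lk_mul, inv_mul_cancel, lk_one]
  right_inv v := by
    simp only
    rw [← lk_mul, mul_inv_cancel, lk_one, sub_add_cancel]

/-- the affine action of the free group on the free module -/
noncomputable def aff : FreeGroup κ →* Equiv.Perm (ZBk N) := FreeGroup.lift (affPerm N)

/-- the Fox derivative -/
noncomputable def fox (f : FreeGroup κ) : ZBk N := aff N f 0

theorem aff_eq (f : FreeGroup κ) (v : ZBk N) :
    aff N f v = lk N (QuotientGroup.mk f) v + fox N f := by
  induction f using FreeGroup.induction_on generalizing v with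
  | C1 => simp [fox, lk_one]
  | of s =>
    unfold fox
    simp only [aff, FreeGroup.lift_apply_of, affPerm, Equiv.coe_fn_mk, map_zero, zero_add]
  | inv_of s hs =>
    unfold fox
    simp only [aff, map_inv, FreeGroup.lift_apply_of]
    change (affPerm N s).symm v = _ + (affPerm N s).symm 0
    simp only [affPerm, Equiv.coe_fn_symm_mk]
    rw [QuotientGroup.mk_inv, zero_sub, map_sub, map_neg, sub_eq_add_neg]
  | mul f g hf hg =>
    unfold fox
    rw [map_mul, Equiv.Perm.mul_apply, Equiv.Perm.mul_apply, hg v, hf, hf (aff N g 0)]
    rw [QuotientGroup.mk_mul, lk_mul, map_add, add_assoc]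
    rfl

@[simp] theorem fox_one : fox N 1 = 0 := by simp [fox]

@[simp] theorem fox_of (s : κ) : fox N (FreeGroup.of s) = single s (single 1 1) := by
  simp [fox, aff, affPerm]

theorem fox_mul (f g : FreeGroup κ) :
    fox N (f * g) = fox N f + lk N (QuotientGroup.mk f) (fox N g) := by
  unfold fox
  rw [map_mul, Equiv.Perm.mul_apply, aff_eq, add_comm]
  rfl

theorem fox_inv (f : FreeGroup κ) :
    fox N f⁻¹ = - lk N (QuotientGroup.mk f)⁻¹ (fox N f) := by
  have h := fox_mul N f⁻¹ f
  rw [inv_mul_cancel, fox_one, QuotientGroup.mk_inv] at h
  exact (eq_neg_of_add_eq_zero_left h.symm)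

/-- the fundamental formula of the Fox calculus -/
theorem bd_fox (f : FreeGroup κ) :
    bd N (fox N f) = single (QuotientGroup.mk f : BB N) 1 - single 1 1 := by
  induction f using FreeGroup.induction_on with
  | C1 => simp
  | of s => simp
  | inv_of s hs =>
    rw [fox_inv, map_neg, bd_lk, fox_of, bd_single, map_sub, rm_single, lm_single, lm_single]
    simp
  | mul f g hf hg =>
    rw [fox_mul, map_add, bd_lk, hf, hg, map_sub, lm_single, lm_single, mul_one,
      QuotientGroup.mk_mul]
    abel

/-- a set-theoretic section of `F → B` with `sec 1 = 1` -/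
noncomputable def sec (b : BB N) : FreeGroup κ := by
  classical
  exact if b = 1 then 1 else b.out

@[simp] theorem sec_one : sec N 1 = 1 := by simp [sec]

@[simp] theorem mk_sec (b : BB N) : (QuotientGroup.mk (sec N b) : BB N) = b := by
  unfold sec
  split_ifs with h
  · rw [h]; rfl
  · exact QuotientGroup.out_eq' b

theorem sec_mem (f : FreeGroup κ) (b : BB N) :
    sec N b * f * (sec N (b * QuotientGroup.mk f))⁻¹ ∈ N := by
  rw [← QuotientGroup.eq_one_iff]
  simp

/-- the abelianization of `N`, written additively -/
abbrev Nab : Type := Additive (Abelianization N)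

/-- the class of an element of `N` in the abelianization -/
def nab (n : N) : Nab N := Additive.ofMul (Abelianization.of n)

theorem nab_mul (m n : N) : nab N (m * n) = nab N m + nab N n := by
  simp [nab]

@[simp] theorem nab_one : nab N 1 = 0 := by
  simp [nab]

theorem nab_inv (n : N) : nab N n⁻¹ = - nab N n := by
  simp [nab]

theorem nab_pow (n : N) (k : ℕ) : nab N (n ^ k) = k • nab N n := by
  simp [nab]

/-- the Schreier-type map -/
noncomputable def sch : ZBk N →ₗ[ℤ] Nab N :=
  Finsupp.lsum ℤ (fun s => Finsupp.lsum ℤ (fun b =>
    (LinearMap.toSpanSingleton ℤ (Nab N)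
      (nab N ⟨_, sec_mem N (FreeGroup.of s) b⟩))))

theorem sch_single (s : κ) (b : BB N) (m : ℤ) :
    sch N (single s (single b m)) = m • nab N ⟨_, sec_mem N (FreeGroup.of s) b⟩ := by
  rw [sch, Finsupp.lsum_single, Finsupp.lsum_single, LinearMap.toSpanSingleton_apply]

theorem sch_lk_fox (f : FreeGroup κ) (b : BB N) :
    sch N (lk N b (fox N f)) = nab N ⟨_, sec_mem N f b⟩ := by
  induction f using FreeGroup.induction_on generalizing b with
  | C1 =>
    simp only [fox_one, map_zero]
    rw [← nab_one N]
    congr 1
    apply Subtype.ext
    simp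
  | of s =>
    rw [fox_of, lk_single, lm_single, mul_one, sch_single, one_smul]
  | inv_of s hs =>
    rw [fox_inv, map_neg, fox_of, lk_single, lm_single, mul_one, lk_single, lm_single, map_neg,
      sch_single, one_smul, ← nab_inv]
    congr 1
    apply Subtype.ext
    simp only [Subgroup.coe_inv, mul_inv_rev, inv_inv, QuotientGroup.mk_inv]
    simp only [mul_assoc, inv_mul_cancel, mul_one]
  | mul f g hf hg =>
    rw [fox_mul, map_add, map_add, hf, ← lk_mul, hg, ← nab_mul]
    congr 1
    apply Subtype.ext
    simp only [Subgroup.coe_mul, QuotientGroup.mk_mul]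
    simp only [mul_assoc, inv_mul_cancel_left]

/-- The Fox derivative of an element of `N` determines its class in the abelianization. -/
theorem sch_fox (n : N) : sch N (fox N n) = nab N n := by
  have h := sch_lk_fox N n 1
  rw [lk_one] at h
  rw [h]
  congr 1
  apply Subtype.ext
  have h2 : (QuotientGroup.mk (n : FreeGroup κ) : BB N) = 1 := (QuotientGroup.eq_one_iff _).2 n.2
  simp [h2]

theorem fox_mul_of_mem {m : FreeGroup κ} (hm : m ∈ N) (f : FreeGroup κ) :
    fox N (m * f) = fox N m + fox N f := by
  rw [fox_mul, (QuotientGroup.eq_one_iff m).2 hm, lk_one]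

/-- the Fox derivative as an additive map on the abelianization of `N` -/
noncomputable def foxN : Nab N →+ ZBk N :=
  MonoidHom.toAdditive (Abelianization.lift (A := Multiplicative (ZBk N))
    { toFun := fun n : N => Multiplicative.ofAdd (fox N n)
      map_one' := by simp
      map_mul' := fun m n => by
        rw [Subgroup.coe_mul, fox_mul_of_mem N m.2]
        rfl })

@[simp] theorem foxN_nab (n : N) : foxN N (nab N n) = fox N n := rfl

theorem nab_surj (v : Nab N) : ∃ n : N, nab N n = v := by
  obtain ⟨n, hn⟩ := QuotientGroup.mk_surjective (Additive.toMul v)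
  exact ⟨n, by rw [nab]; exact congrArg Additive.ofMul hn⟩

theorem sch_foxN (v : Nab N) : sch N (foxN N v) = v := by
  obtain ⟨n, rfl⟩ := nab_surj N v
  rw [foxN_nab, sch_fox]

theorem foxN_injective : Function.Injective (foxN N) := fun v w h => by
  rw [← sch_foxN N v, ← sch_foxN N w, h]

theorem bd_foxN (v : Nab N) : bd N (foxN N v) = 0 := by
  obtain ⟨n, rfl⟩ := nab_surj N v
  rw [foxN_nab, bd_fox, (QuotientGroup.eq_one_iff (n : FreeGroup κ)).2 n.2, sub_self]

/-- the Fox derivatives of the section, extended linearly -/
noncomputable def fsec : ZB N →ₗ[ℤ] ZBk N :=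
  Finsupp.lsum ℤ (fun b => LinearMap.toSpanSingleton ℤ (ZBk N) (fox N (sec N b)))

theorem fsec_single (b : BB N) (m : ℤ) : fsec N (single b m) = m • fox N (sec N b) := by
  simp [fsec]

theorem foxN_sch (z : ZBk N) : foxN N (sch N z) = z - fsec N (bd N z) := by
  induction z using Finsupp.induction_linear with
  | zero => simp
  | add f g hf hg =>
    simp only [map_add, hf, hg]
    abel
  | single s v =>
    induction v using Finsupp.induction_linear with
    | zero => simp
    | add f g hf hg =>
      simp only [Finsupp.single_add, map_add, hf, hg]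
      abel
    | single b m =>
      have key : fox N (sec N b * FreeGroup.of s * (sec N (b * gen N s))⁻¹) =
          fox N (sec N b) + single s (single b 1) - fox N (sec N (b * gen N s)) := by
        rw [fox_mul, fox_mul, fox_inv, fox_of, lk_single, lm_single, mk_sec, mk_sec, mul_one,
          map_neg, ← lk_mul, QuotientGroup.mk_mul, mk_sec, mul_inv_cancel, lk_one, sub_eq_add_neg]
      rw [sch_single, map_zsmul, foxN_nab, bd_single, rm_single, map_sub, fsec_single, fsec_single]
      change m • fox N (sec N b * FreeGroup.of s * (sec N (b * gen N s))⁻¹) = _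
      rw [key, smul_sub, smul_add]
      have : m • (single s (single b 1) : ZBk N) = single s (single b m) := by
        rw [Finsupp.smul_single, Finsupp.smul_single, smul_eq_mul, mul_one]
      rw [this]
      abel

/-- exactness in the middle -/
theorem exact_mid {z : ZBk N} (hz : bd N z = 0) : ∃ v : Nab N, foxN N v = z :=
  ⟨sch N z, by rw [foxN_sch, hz, map_zero, sub_zero]⟩

/-- the augmentation -/
noncomputable def aug : ZB N →ₗ[ℤ] ℤ := Finsupp.lsum ℤ (fun _ => LinearMap.id)

@[simp] theorem aug_single (b : BB N) (m : ℤ) : aug N (single b m) = m := by simp [aug]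

theorem aug_lm (b : BB N) (v : ZB N) : aug N (lm N b v) = aug N v := by
  induction v using Finsupp.induction_linear with
  | zero => simp
  | add f g hf hg => simp only [map_add, hf, hg]
  | single a m => simp

theorem aug_bd (z : ZBk N) : aug N (bd N z) = 0 := by
  induction z using Finsupp.induction_linear with
  | zero => simp
  | add f g hf hg => simp only [map_add, hf, hg, add_zero]
  | single s v =>
    induction v using Finsupp.induction_linear with
    | zero => simp
    | add f g hf hg => simp only [Finsupp.single_add, map_add, hf, hg, add_zero]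
    | single b m => simp

theorem bd_fsec (y : ZB N) : bd N (fsec N y) = y - single 1 (aug N y) := by
  induction y using Finsupp.induction_linear with
  | zero => simp
  | add f g hf hg =>
    simp only [map_add, hf, hg, Finsupp.single_add]
    abel
  | single b m =>
    rw [fsec_single, map_zsmul, bd_fox, mk_sec, smul_sub, aug_single]
    simp

/-- exactness at the group ring -/
theorem exact_ring {y : ZB N} (hy : aug N y = 0) : ∃ z : ZBk N, bd N z = y :=
  ⟨fsec N y, by rw [bd_fsec, hy]; simp⟩

end Fox

end W3ab0ed.Rel
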