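import Mathlib

/-!
Homology part of MP_3ab0ed_al, block REL.  Norm and difference operators for a permutation of
prime order without fixed points, on the free abelian group on a set.
-/

set_option linter.unusedSectionVars false

namespace W3ab0ed.Rel

open Finsupp

section Nrm

variable {Y : Type}

/-- the operator induced by a permutation on the free abelian group -/
noncomputable def pop (τ : Equiv.Perm Y) : (Y →₀ ℤ) →ₗ[ℤ] (Y →₀ ℤ) :=
  Finsupp.lmapDomain ℤ ℤ τ

@[simp] theorem pop_single (τ : Equiv.Perm Y) (y : Y) (m : ℤ) :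
    pop τ (single y m) = single (τ y) m := by
  simp [pop, Finsupp.mapDomain_single]

theorem pop_mul (τ σ : Equiv.Perm Y) (v : Y →₀ ℤ) : pop (τ * σ) v = pop τ (pop σ v) := by
  induction v using Finsupp.induction_linear with
  | zero => simp
  | add f g hf hg => simp only [map_add, hf, hg]
  | single a m => simp

theorem pop_one (v : Y →₀ ℤ) : pop (1 : Equiv.Perm Y) v = v := by
  induction v using Finsupp.induction_linear with
  | zero => simp
  | add f g hf hg => simp only [map_add, hf, hg]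
  | single a m => simp

/-- the norm operator -/
noncomputable def nrm (p : ℕ) (τ : Equiv.Perm Y) : (Y →₀ ℤ) →ₗ[ℤ] (Y →₀ ℤ) :=
  ∑ j ∈ Finset.range p, pop (τ ^ j)

theorem nrm_single (p : ℕ) (τ : Equiv.Perm Y) (y : Y) (m : ℤ) :
    nrm p τ (single y m) = ∑ j ∈ Finset.range p, single ((τ ^ j) y) m := by
  simp [nrm]

theorem nrm_apply (p : ℕ) (τ : Equiv.Perm Y) (v : Y →₀ ℤ) :
    nrm p τ v = ∑ j ∈ Finset.range p, pop (τ ^ j) v := by
  simp [nrm]

/-- the coefficient of the norm at a fixed point -/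
theorem nrm_coeff_fixed (p : ℕ) (τ : Equiv.Perm Y) (v : Y →₀ ℤ) {y : Y} (hy : τ y = y) :
    nrm p τ v y = p * v y := by
  have hpow : ∀ j : ℕ, (τ ^ j) y = y := by
    intro j
    induction j with
    | zero => rfl
    | succ j ih => rw [pow_succ, Equiv.Perm.mul_apply, hy, ih]
  have hcoef : ∀ j : ℕ, pop (τ ^ j) v y = v y := by
    intro j
    have h := Finsupp.mapDomain_apply (M := ℤ) (f := ⇑(τ ^ j)) (τ ^ j).injective v y
    rw [hpow j] at h
    exact h
  rw [nrm_apply, Finsupp.finsetSum_apply]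
  simp [hcoef]

variable (p : ℕ) [hp : Fact p.Prime] (τ : Equiv.Perm Y) (hτ : τ ^ p = 1)
  (hfix : ∀ y, τ y ≠ y)

include hτ hfix in
theorem pow_fix_dvd {y : Y} {i : ℤ} (h : (τ ^ i) y = y) : (p : ℤ) ∣ i := by
  by_contra hcon
  have hcop : IsCoprime (p : ℤ) i := by
    rw [Prime.coprime_iff_not_dvd (Nat.prime_iff_prime_int.mp hp.out)]
    exact hcon
  obtain ⟨a, b, hab⟩ := hcop
  have hi : ∀ k : ℤ, ((τ ^ i) ^ k) y = y := by
    intro k
    exact Function.IsFixedPt.perm_zpow h k
  have h1 : τ ^ (1 : ℤ) = (τ ^ p) ^ a * (τ ^ i) ^ b := by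
    rw [← zpow_natCast, ← zpow_mul, ← zpow_mul, ← zpow_add, mul_comm (p : ℤ) a, mul_comm i b, hab]
  have h2 : τ y = y := by
    have : (τ ^ (1 : ℤ)) y = y := by
      rw [h1, hτ, one_zpow, one_mul]
      exact hi b
    simpa using this
  exact hfix y h2

/-- a representative of the cycle -/
noncomputable def crep (y : Y) : Y := (Quotient.mk (Equiv.Perm.SameCycle.setoid τ) y).out

theorem crep_same (y : Y) : τ.SameCycle (crep τ y) y := Quotient.mk_out (s := Equiv.Perm.SameCycle.setoid τ) y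

theorem crep_eq {y z : Y} (h : τ.SameCycle y z) : crep τ y = crep τ z := by
  unfold crep
  rw [Quotient.sound (s := Equiv.Perm.SameCycle.setoid τ) h]

include hτ in
theorem exists_idx (y : Y) : ∃ j : ℕ, j < p ∧ (τ ^ j) (crep τ y) = y := by
  obtain ⟨i, hi⟩ := crep_same τ y
  have hp0 : (p : ℤ) ≠ 0 := by exact_mod_cast hp.out.ne_zero
  refine ⟨(i % p).toNat, ?_, ?_⟩
  · have h1 := Int.emod_lt_of_pos i (by exact_mod_cast hp.out.pos : (0 : ℤ) < p)
    have h2 := Int.emod_nonneg i hp0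
    omega
  · have h2 := Int.emod_nonneg i hp0
    have h3 : τ ^ (i % p).toNat = τ ^ i := by
      rw [← zpow_natCast, Int.toNat_of_nonneg h2]
      conv_rhs => rw [← Int.emod_add_mul_ediv i p]
      rw [zpow_add, zpow_mul, zpow_natCast, hτ, one_zpow, mul_one]
    rw [h3, hi]

open Classical in
/-- the position in the cycle -/
noncomputable def idx (y : Y) : ℕ :=
  if h : ∃ j : ℕ, j < p ∧ (τ ^ j) (crep τ y) = y then h.choose else 0

include hτ in
theorem idx_lt (y : Y) : idx p τ y < p := by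
  unfold idx
  rw [dif_pos (exists_idx p τ hτ y)]
  exact (exists_idx p τ hτ y).choose_spec.1

include hτ in
theorem idx_spec (y : Y) : (τ ^ idx p τ y) (crep τ y) = y := by
  unfold idx
  rw [dif_pos (exists_idx p τ hτ y)]
  exact (exists_idx p τ hτ y).choose_spec.2

include hτ hfix in
theorem idx_unique {r : Y} (hr : crep τ r = r) {j : ℕ} (hj : j < p) :
    idx p τ ((τ ^ j) r) = j ∧ crep τ ((τ ^ j) r) = r := by
  have h1 : crep τ ((τ ^ j) r) = r := by
    rw [← crep_eq τ (show τ.SameCycle r ((τ ^ j) r) from ⟨j, by simp⟩), hr]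
  refine ⟨?_, h1⟩
  have h2 := idx_spec p τ hτ ((τ ^ j) r)
  have h3 := idx_lt p τ hτ ((τ ^ j) r)
  rw [h1] at h2
  have h4 : (τ ^ ((idx p τ ((τ ^ j) r) : ℤ) - (j : ℤ))) r = r := by
    rw [sub_eq_neg_add, zpow_add, Equiv.Perm.mul_apply, zpow_natCast, h2, zpow_neg, zpow_natCast]
    simp
  have h5 := pow_fix_dvd p τ hτ hfix h4
  obtain ⟨c, hc⟩ := h5
  have h6 : c = 0 := by
    have h7 : (p : ℤ) * c < p * 1 := by rw [← hc]; omega
    have h8 : (p : ℤ) * (-1) < p * c := by rw [← hc]; omega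
    have hpp : (0 : ℤ) < p := by exact_mod_cast hp.out.pos
    have h9 := lt_of_mul_lt_mul_left h7 hpp.le
    have h10 := lt_of_mul_lt_mul_left h8 hpp.le
    omega
  rw [h6] at hc
  omega

theorem crep_crep (y : Y) : crep τ (crep τ y) = crep τ y := crep_eq τ (crep_same τ y)

/-- the partial sums of a cycle -/
noncomputable def psum : (Y →₀ ℤ) →ₗ[ℤ] (Y →₀ ℤ) :=
  Finsupp.lsum ℤ (fun y => LinearMap.toSpanSingleton ℤ (Y →₀ ℤ)
    (∑ i ∈ Finset.range (idx p τ y), single ((τ ^ i) (crep τ y)) 1))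

theorem psum_single (y : Y) (m : ℤ) : psum p τ (single y m) =
    m • ∑ i ∈ Finset.range (idx p τ y), single ((τ ^ i) (crep τ y)) 1 := by
  rw [psum, Finsupp.lsum_single, LinearMap.toSpanSingleton_apply]

open Classical in
/-- the restriction to the representatives -/
noncomputable def rho : (Y →₀ ℤ) →ₗ[ℤ] (Y →₀ ℤ) :=
  Finsupp.lsum ℤ (fun y => LinearMap.toSpanSingleton ℤ (Y →₀ ℤ)
    (if crep τ y = y then single y 1 else 0))

open Classical in
theorem rho_single (y : Y) (m : ℤ) : rho τ (single y m) =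
    m • (if crep τ y = y then single y 1 else 0) := by
  rw [rho, Finsupp.lsum_single, LinearMap.toSpanSingleton_apply]

theorem single_eq_smul (y : Y) (m : ℤ) : (single y m : Y →₀ ℤ) = m • single y 1 := by
  rw [Finsupp.smul_single, smul_eq_mul, mul_one]

theorem lin_ext {A : Type} [AddCommGroup A] {f g : (Y →₀ ℤ) →ₗ[ℤ] A}
    (h : ∀ y, f (single y 1) = g (single y 1)) (v : Y →₀ ℤ) : f v = g v := by
  have : f = g := by
    ext y
    simpa using h y
  rw [this]

theorem telescope (f : ℕ → Y →₀ ℤ) (j : ℕ) :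
    ∑ i ∈ Finset.range j, f (i + 1) - ∑ i ∈ Finset.range j, f i = f j - f 0 := by
  rw [← Finset.sum_sub_distrib, Finset.sum_range_sub]

theorem pow_succ_apply' (i : ℕ) (r : Y) : τ ((τ ^ i) r) = (τ ^ (i + 1)) r := by
  rw [pow_succ', Equiv.Perm.mul_apply]

include hτ in
theorem nrm_pop (v : Y →₀ ℤ) : nrm p τ (pop τ v) = nrm p τ v := by
  refine lin_ext (f := (nrm p τ) ∘ₗ (pop τ)) (g := nrm p τ) (fun y => ?_) v
  rw [LinearMap.comp_apply, pop_single, nrm_single, nrm_single, ← sub_eq_zero]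
  have e : ∀ i : ℕ, (τ ^ i) (τ y) = (τ ^ (i + 1)) y := by
    intro i
    rw [pow_succ, Equiv.Perm.mul_apply]
  simp only [e]
  rw [telescope (fun i => single ((τ ^ i) y) 1), hτ]
  simp

include hτ in
theorem nrm_pop_pow (v : Y →₀ ℤ) (j : ℕ) : nrm p τ (pop (τ ^ j) v) = nrm p τ v := by
  induction j with
  | zero => rw [pow_zero, pop_one]
  | succ j ih => rw [pow_succ', pop_mul, nrm_pop p τ hτ, ih]

include hτ in
theorem pop_nrm (v : Y →₀ ℤ) : pop τ (nrm p τ v) = nrm p τ v := by
  refine lin_ext (f := (pop τ) ∘ₗ (nrm p τ)) (g := nrm p τ) (fun y => ?_) v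
  rw [LinearMap.comp_apply, nrm_single, map_sum, ← sub_eq_zero]
  simp only [pop_single, pow_succ_apply']
  rw [telescope (fun i => single ((τ ^ i) y) 1), hτ]
  simp

include hτ hfix in
theorem rho_pow {r : Y} (hr : crep τ r = r) {j : ℕ} (hj : j < p) :
    rho τ (single ((τ ^ j) r) 1) = if j = 0 then single r 1 else 0 := by
  classical
  obtain ⟨h1, h2⟩ := idx_unique p τ hτ hfix hr hj
  rw [rho_single, one_smul, h2]
  by_cases h0 : j = 0
  · subst h0; simp
  · rw [if_neg, if_neg h0]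
    intro h
    have h3 : (τ ^ (j : ℤ)) r = r := by
      rw [zpow_natCast]; exact h.symm
    obtain ⟨c, hc⟩ := pow_fix_dvd p τ hτ hfix h3
    have hdvd : p ∣ j := by
      have : (p : ℤ) ∣ (j : ℤ) := ⟨c, hc⟩
      exact_mod_cast this
    exact h0 (Nat.eq_zero_of_dvd_of_lt hdvd hj)

include hτ hfix in
/-- every vector is a difference plus the part coming from the norm -/
theorem eq_diff_add (v : Y →₀ ℤ) :
    v = (pop τ (psum p τ v) - psum p τ v) + rho τ (nrm p τ v) := by
  have key := lin_ext (f := LinearMap.id)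
    (g := (pop τ) ∘ₗ (psum p τ) - psum p τ + (rho τ) ∘ₗ (nrm p τ)) (A := Y →₀ ℤ) ?_ v
  · simpa using key
  intro y
  obtain ⟨r, hr, j, hj, rfl⟩ : ∃ r, crep τ r = r ∧ ∃ j, j < p ∧ y = (τ ^ j) r :=
    ⟨crep τ y, crep_crep τ y, idx p τ y, idx_lt p τ hτ y, (idx_spec p τ hτ y).symm⟩
  obtain ⟨h1, h2⟩ := idx_unique p τ hτ hfix hr hj
  simp only [LinearMap.id_coe, id_eq, LinearMap.add_apply, LinearMap.sub_apply,
    LinearMap.comp_apply]
  have h3 : nrm p τ (single ((τ ^ j) r) 1) = nrm p τ (single r 1) := by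
    rw [← pop_single, nrm_pop_pow p τ hτ]
  have h4 : rho τ (nrm p τ (single r 1)) = single r 1 := by
    rw [nrm_single, map_sum]
    rw [Finset.sum_congr rfl (fun i hi => rho_pow p τ hτ hfix hr (Finset.mem_range.1 hi))]
    rw [Finset.sum_ite_eq' (Finset.range p) 0, if_pos (Finset.mem_range.2 hp.out.pos)]
  rw [h3, h4, psum_single, h1, h2, one_smul, map_sum]
  simp only [pop_single, pow_succ_apply']
  rw [telescope (fun i => single ((τ ^ i) r) 1)]
  simp

include hτ hfix in
theorem eq_psum_add (w : Y →₀ ℤ) :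
    w = psum p τ (pop τ w - w) + nrm p τ (rho τ (pop τ w)) := by
  have key := lin_ext (f := LinearMap.id)
    (g := (psum p τ) ∘ₗ (pop τ - LinearMap.id) + (nrm p τ) ∘ₗ (rho τ) ∘ₗ (pop τ))
    (A := Y →₀ ℤ) ?_ w
  · simpa using key
  intro y
  obtain ⟨r, hr, j, hj, rfl⟩ : ∃ r, crep τ r = r ∧ ∃ j, j < p ∧ y = (τ ^ j) r :=
    ⟨crep τ y, crep_crep τ y, idx p τ y, idx_lt p τ hτ y, (idx_spec p τ hτ y).symm⟩
  obtain ⟨h1, h2⟩ := idx_unique p τ hτ hfix hr hj
  simp only [LinearMap.id_coe, id_eq, LinearMap.add_apply, LinearMap.sub_apply,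
    LinearMap.comp_apply, pop_single, map_sub]
  rw [pow_succ_apply']
  rcases Nat.lt_or_ge (j + 1) p with hj1 | hj1
  · obtain ⟨h1', h2'⟩ := idx_unique p τ hτ hfix hr hj1
    rw [rho_pow p τ hτ hfix hr hj1, if_neg (Nat.succ_ne_zero j), map_zero, add_zero, psum_single,
      psum_single, h1, h2, h1', h2', one_smul, one_smul, Finset.sum_range_succ, add_sub_cancel_left]
  · have hjp : j + 1 = p := le_antisymm hj hj1
    rw [hjp, hτ, Equiv.Perm.one_apply]
    have h5 := rho_pow p τ hτ hfix hr hp.out.pos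
    have h6 := (idx_unique p τ hτ hfix hr hp.out.pos).1
    rw [pow_zero, Equiv.Perm.one_apply] at h5 h6
    rw [h5, if_pos rfl, psum_single, psum_single, h1, h2, h6, one_smul, one_smul, nrm_single]
    rw [← hjp, Finset.sum_range_succ]
    simp

include hτ hfix in
/-- exactness: the kernel of the norm consists of differences -/
theorem exists_of_nrm_eq_zero {v : Y →₀ ℤ} (h : nrm p τ v = 0) : ∃ w, v = pop τ w - w :=
  ⟨psum p τ v, by
    have := eq_diff_add p τ hτ hfix v
    rw [h, map_zero, add_zero] at this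
    exact this⟩

include hτ hfix in
/-- exactness: invariant vectors are norms -/
theorem exists_of_pop_eq {w : Y →₀ ℤ} (h : pop τ w = w) : ∃ v, w = nrm p τ v :=
  ⟨rho τ w, by
    have := eq_psum_add p τ hτ hfix w
    rw [h, sub_self, map_zero, zero_add] at this
    exact this⟩

end Nrm

end W3ab0ed.Rel
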