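import Pool.Agent.W_MP_3ab0ed_burn.Family
import Pool.Agent.W_MP_3ab0ed_burn.P3Gr

/-!
MP_3ab0ed_al, piece P4 (row 77), section 6, cone part: the fact A3 of the cone-off.
-/

set_option linter.style.haveILetI false

namespace Burn

namespace Up

variable {n δ B q : ℕ} {G V : Type} [Group G] [MulAction G V] {M : IMet V}

/-- powers of the generator of the stabiliser of an apex move every point linearly -/
theorem ap_disp (H : Up n δ B q G V M) {N : ℕ} (hN : 0 < N) (c : Ap n δ B q G M) (s : ℤ)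
    (y : V) : s.natAbs ≤ q * N * resc M.nd N y (c.1 ^ s • y) := by
  have h1 := c.2.1 y s.natAbs
  rw [← IMet.disp_zpow (M := M) H.inv] at h1
  have c1 := M.nd_cast y (c.1 ^ s • y)
  have h4 : s.natAbs ≤ q * M.nd y (c.1 ^ s • y) := by
    have : ((s.natAbs : ℕ) : ℤ) ≤ ((q * M.nd y (c.1 ^ s • y) : ℕ) : ℤ) := by
      push_cast
      rw [c1]
      push_cast at h1
      exact h1
    exact_mod_cast this
  have h6 := (resc_bounds (d := M.nd) hN y (c.1 ^ s • y)).1
  calc s.natAbs ≤ q * M.nd y (c.1 ^ s • y) := h4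
    _ ≤ q * (N * resc M.nd N y (c.1 ^ s • y)) := Nat.mul_le_mul_left _ h6
    _ = q * N * resc M.nd N y (c.1 ^ s • y) := by ring

/-- arithmetic: a multiple of `i` congruent to `t` modulo the prime `n` -/
theorem h43_bezout {n : ℕ} (hp : n.Prime) {i : ℤ} (hi : ¬ (n : ℤ) ∣ i) (t : ℤ) :
    ∃ (m : ℕ) (l : ℤ), i * m = t + n * l := by
  have hcop : IsCoprime (n : ℤ) i := by
    rw [(Nat.prime_iff_prime_int.1 hp).coprime_iff_not_dvd]
    exact hi
  obtain ⟨b, a, hab⟩ := hcop
  have hn : (0 : ℤ) < n := by exact_mod_cast hp.pos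
  refine ⟨(a * t % n).toNat, -(b * t) - i * (a * t / n), ?_⟩
  rw [Int.toNat_of_nonneg (Int.emod_nonneg _ hn.ne')]
  have h1 := Int.emod_add_mul_ediv (a * t) n
  have h2 : a * t % n = a * t - n * (a * t / n) := by omega
  rw [h2]
  have h3 : i * (a * t) = t - n * (b * t) := by
    have : t = (b * n + a * i) * t := by rw [hab, one_mul]
    calc i * (a * t) = (b * n + a * i) * t - n * (b * t) := by ring
      _ = t - n * (b * t) := by rw [← this]
  calc i * (a * t - n * (a * t / n)) = i * (a * t) - n * (i * (a * t / n)) := by ring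
    _ = t - n * (b * t) - n * (i * (a * t / n)) := by rw [h3]
    _ = t + n * (-(b * t) - i * (a * t / n)) := by ring

/-- A3 -/
theorem h43_A3 (H : Up n δ B q G V M) (hp : n.Prime) {t : ℕ} (hnt : n = 2 * t + 1) {N R T : ℕ}
    (hN : 40 * δ + 3 + B + 20000 * δ ≤ N) (hR : Cone.depth ≤ R)
    (hT : T * (q * N) ≤ n) (hTh : 2 * ((12 * Cone.dX + 11) * 2 ^ R) ≤ T)
    (hbig : q * N * (Cone.dX * 2 ^ (2 * Cone.dX + 1)) < t) :
    letI := apAct (n := n) (δ := δ) (B := B) (q := q) H.inv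
    letI := Cone.coneAct (R := R) (Yx_smul (n := n) (δ := δ) (B := B) (q := q) H.inv)
    ∀ c ∈ (rf H hN hR hT hTh).V, ∀ c' ∈ (rf H hN hR hT hTh).V, c ≠ c' → ∀ g : G, g • c = c →
      g ∉ RotFam.KA (rf H hN hR hT hTh) →
      ∃ (m : ℕ) (w : Cone (Yx n δ B q M (G := G)) R),
        Cone.rho (resc M.nd N) c w + Cone.rho (resc M.nd N) w c' =
          Cone.rho (resc M.nd N) c c' ∧
        ∀ k ∈ RotFam.KA (rf H hN hR hT hTh),
          Cone.dX < Cone.rho (resc M.nd N) w (k • g ^ m • w) := by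
  letI := apAct (n := n) (δ := δ) (B := B) (q := q) H.inv
  letI := Cone.coneAct (R := R) (Yx_smul (n := n) (δ := δ) (B := B) (q := q) H.inv)
  have hd : IsGeod (resc M.nd N) := isGeod_resc M.isGeod (by omega)
  have hne : ∀ C : Ap n δ B q G M, (Yx n δ B q M C).Nonempty := Yx_ne
  have hge : IsGeod (Cone.rho (resc M.nd N) : Cone (Yx n δ B q M (G := G)) R → _ → ℕ) :=
    Cone.isGeod_rho hd hne
  have hdepth : 2 * Cone.dX + 1 ≤ R := by
    have h1 := Cone.one_le_dX
    unfold Cone.depth at hR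
    omega
  rintro _ ⟨C, rfl⟩ _ ⟨C', rfl⟩ hCC g hg hgK
  have hne' : C ≠ C' := fun e => hCC (by rw [e])
  have hgC : g • C = C := Cone.apex_inj (show (Cone.apex (g • C) : Cone _ R) = Cone.apex C from hg)
  have hgz : g ∈ Subgroup.zpowers C.1 := by
    rw [← stab_eq H.inv C]
    exact hgC
  obtain ⟨i, hi⟩ := Subgroup.mem_zpowers_iff.1 hgz
  have hCK : C.1 ^ n ∈ RotFam.KA (rf H hN hR hT hTh) :=
    RotFam.H_le_KA (F := rf H hN hR hT hTh) (c := Cone.apex C) ⟨C, rfl⟩
      (Subgroup.mem_zpowers (C.1 ^ n))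
  have hni : ¬ (n : ℤ) ∣ i := by
    rintro ⟨r, hr⟩
    apply hgK
    have e : g = (C.1 ^ n) ^ r := by
      rw [← hi, hr, zpow_mul, zpow_natCast]
    rw [e]
    exact Subgroup.zpow_mem _ hCK r
  obtain ⟨m, l, hml⟩ := h43_bezout hp hni (t : ℤ)
  -- the point on the geodesic
  obtain ⟨f, f0, fm, hf⟩ := exists_geodSeq hge (Cone.apex C : Cone (Yx n δ B q M (G := G)) R)
    (Cone.apex C')
  obtain ⟨hRm, y, hy, hcol⟩ := Cone.descent hd hne hf f0 (by
    rw [fm]
    simp [Cone.kC, Ne.symm hne'])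
  have hw := hcol (R - Cone.dX) (by omega)
  have hmem := hf.mem (i := R - Cone.dX) (by omega)
  rw [f0, fm, hw, show R + 1 - (R - Cone.dX) = Cone.dX + 1 by omega] at hmem
  refine ⟨m, _, hmem, ?_⟩
  intro k hk
  by_contra hcon
  push Not at hcon
  have hact : k • g ^ m • (Cone.col C y hy (Cone.dX + 1) : Cone (Yx n δ B q M (G := G)) R) =
      Cone.col ((k * g ^ m) • C) ((k * g ^ m) • y)
        (Yx_smul (n := n) (δ := δ) (B := B) (q := q) H.inv (k * g ^ m) C y hy)
        (Cone.dX + 1) := by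
    rw [smul_smul]
    exact Cone.gact_col _ _ _ _ _
  rw [hact] at hcon
  have hkm : ∀ m : ℕ, g ^ m • C = C := by
    intro m
    induction m with
    | zero => rw [pow_zero, one_smul]
    | succ m ih => rw [pow_succ, mul_smul, hgC, ih]
  -- the level
  have hlip := Cone.kC_lip (R := R) hd hne C
    (Cone.col ((k * g ^ m) • C) ((k * g ^ m) • y)
        (Yx_smul (n := n) (δ := δ) (B := B) (q := q) H.inv (k * g ^ m) C y hy)
        (Cone.dX + 1)) (Cone.col C y hy (Cone.dX + 1))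
  rw [Cone.kC_col_self, hge.symm, Cone.kC_col] at hlip
  have hkC : (k * g ^ m) • C = C := by
    by_contra hneC
    rw [if_neg hneC] at hlip
    omega
  have hkC2 : k • C = C := by
    rw [mul_smul, hkm m] at hkC
    exact hkC
  have hkH := (RotFam.stab_apex (F := rf H hN hR hT hTh) (c := Cone.apex C) ⟨C, rfl⟩).1
    ⟨hk, show (Cone.apex (k • C) : Cone _ R) = Cone.apex C by rw [hkC2]⟩
  obtain ⟨r, hr⟩ := Subgroup.mem_zpowers_iff.1
    (show k ∈ Subgroup.zpowers (C.1 ^ n) from hkH)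
  have hs : k * g ^ m = C.1 ^ ((t : ℤ) + n * (r + l)) := by
    have e : (t : ℤ) + n * (r + l) = n * r + i * m := by
      rw [hml]; ring
    rw [e, zpow_add, zpow_mul, zpow_mul, zpow_natCast, hr, hi, zpow_natCast]
  have hbase := Cone.base_le (R := R) hd hne (fun C => (hne C).some) hdepth
    (u := (Cone.col C y hy (Cone.dX + 1) : Cone (Yx n δ B q M (G := G)) R))
    (v := Cone.col ((k * g ^ m) • C) ((k * g ^ m) • y)
        (Yx_smul (n := n) (δ := δ) (B := B) (q := q) H.inv (k * g ^ m) C y hy)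
        (Cone.dX + 1)) (by
      rw [Cone.lev_col, Cone.lev_col]
      omega)
  rw [Cone.base_col _ _ _ _ (by omega), Cone.base_col _ _ _ _ (by omega)] at hbase
  have hd2 := ap_disp H (N := N) (by omega) C ((t : ℤ) + n * (r + l)) y
  rw [← hs] at hd2
  have habs : t ≤ ((t : ℤ) + n * (r + l)).natAbs := by
    rcases le_or_gt 0 (r + l) with h | h
    · have : 0 ≤ (n : ℤ) * (r + l) := mul_nonneg (by positivity) h
      omega
    · have : (n : ℤ) * (r + l) ≤ n * (-1) := mul_le_mul_of_nonneg_left (by omega) (by positivity)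
      omega
  have h5 : resc M.nd N y ((k * g ^ m) • y) ≤ Cone.dX * 2 ^ (2 * Cone.dX + 1) :=
    hbase.trans (Nat.mul_le_mul_right _ hcon)
  have h6 : q * N * resc M.nd N y ((k * g ^ m) • y) ≤
      q * N * (Cone.dX * 2 ^ (2 * Cone.dX + 1)) := Nat.mul_le_mul_left _ h5
  omega

end Up

end Burn
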