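import Pool.Agent.W_MP_3ab0ed_burn.P3Quot

/-!
MP_3ab0ed_al, piece P4 (row 77), sections 3 and 6 on the level of an abstract rotation family:
separation of apices in the quotient (L1), faithful lifts far from the apices (L2, L3), and the
common stabilisers of two apices in the quotient (L4).
-/

namespace Burn

namespace RotFam

variable {G Z Γ : Type*} [Group G] [MulAction G Z] [MulAction G Γ]
  {ρ : Z → Z → ℕ} {δ S Th T : ℕ} {F : RotFam G Z Γ ρ δ S Th T}

/-- L1 -/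
theorem h43_L1 {z c : Z} (hc : c ∈ F.V) {g : G} {R1 b : ℕ} (h1 : qd F (qmk F z) (qmk F c) ≤ R1)
    (h2 : qd F (qmk F z) (qmk F (g • z)) ≤ b) (hb : 2 * R1 + b < S) :
    qmk F (g • c) = qmk F c := by
  have hq := isGeod_qd (F := F)
  have t1 := hq.tri (qmk F c) (qmk F z) (qmk F (g • c))
  have t2 := hq.tri (qmk F z) (qmk F (g • z)) (qmk F (g • c))
  have e1 : qd F (qmk F (g • z)) (qmk F (g • c)) = qd F (qmk F z) (qmk F c) :=
    od_smul (F := F) g z c
  have s1 := hq.symm (qmk F c) (qmk F z)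
  obtain ⟨k, hk, hk2⟩ := qd_spec (F := F) c (g • c)
  have hkc : k • g • c ∈ F.V := F.V_smul _ _ (F.V_smul _ _ hc)
  have h3 : c = k • g • c := by
    by_contra hne
    have := F.sep c hc _ hkc hne
    omega
  rw [qmk_eq_iff]
  exact ⟨k, hk, h3⟩

/-- L2 -/
theorem h43_L2 {y : Z} {R1 : ℕ} (hy : ∀ c ∈ F.V, R1 < ρ y c) {k : G} (hk : k ∈ KA F)
    (h : ρ y (k • y) ≤ 2 * R1) : k = 1 := by
  by_contra hk1
  rcases greendlinger y hk hk1 with ⟨hV, _⟩ | ⟨c, _, hc, _, _, _, _, hp, _⟩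
  · have := hy y hV
    rw [F.geo.self] at this
    omega
  · have h1 := hp.1
    have h2 := hy c hc
    have h3 := hy (k⁻¹ • c) (F.V_smul _ _ hc)
    rw [← F.inv k, smul_inv_smul, F.geo.symm] at h3
    omega

/-- L3 -/
theorem h43_L3 {x y : Z} {R1 b : ℕ}
    (hxy : ∀ z, ρ x z + ρ z y = ρ x y → ∀ c ∈ F.V, R1 < ρ z c) (hb : b ≤ R1) (hT : 5 * Th ≤ T)
    {g k : G} (hx : ρ x (g • x) ≤ b) (hk : k ∈ KA F) (hy : ρ y (k • g • y) ≤ b) : k = 1 := by
  by_contra hk1
  have hxx := hxy x (by rw [F.geo.self]; omega)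
  have hyy := hxy y (by rw [F.geo.self]; omega)
  have hgy : ∀ c ∈ F.V, R1 < ρ (g • y) c := by
    intro c hc
    have := hyy (g⁻¹ • c) (F.V_smul _ _ hc)
    rwa [← F.inv g, smul_inv_smul] at this
  have hgx : ∀ c ∈ F.V, R1 < ρ (g • x) c := by
    intro c hc
    have := hxx (g⁻¹ • c) (F.V_smul _ _ hc)
    rwa [← F.inv g, smul_inv_smul] at this
  have hky : ∀ c ∈ F.V, R1 < ρ (k • g • y) c := by
    intro c hc
    have := hgy (k⁻¹ • c) (F.V_smul _ _ hc)
    rwa [← F.inv k, smul_inv_smul] at this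
  rcases greendlinger (g • y) hk hk1 with ⟨hV, _⟩ | hGr
  · have := hgy _ hV
    rw [F.geo.self] at this
    omega
  obtain ⟨c, h, hc, h1, h2, hh, hh1, hp, hlt, hsm, hbig⟩ := hGr.angle
  have hne : ∀ {z : Z}, (∀ c ∈ F.V, R1 < ρ z c) → z ≠ c := by
    intro z hz e
    have := hz c hc
    rw [e, F.geo.self] at this
    omega
  have nx := hne hxx
  have ny := hne hyy
  have ngx := hne hgx
  have ngy := hne hgy
  have nky := hne hky
  obtain ⟨a0, ha0⟩ := F.germ_ne c hc _ ngy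
  obtain ⟨a1, ha1⟩ := F.germ_ne c hc _ ngx
  obtain ⟨a2, ha2⟩ := F.germ_ne c hc _ nx
  obtain ⟨a3, ha3⟩ := F.germ_ne c hc _ ny
  obtain ⟨a4, ha4⟩ := F.germ_ne c hc _ nky
  have hb0 := hbig a0 ha0 a4 ha4
  have q1 := F.dG_tri a0 a1 a4
  have q2 := F.dG_tri a1 a2 a4
  have q3 := F.dG_tri a2 a3 a4
  have hcase : Th ≤ F.dG a0 a1 ∨ Th ≤ F.dG a1 a2 ∨ Th ≤ F.dG a2 a3 ∨ Th ≤ F.dG a3 a4 := by
    omega
  rcases hcase with hc1 | hc1 | hc1 | hc1
  · have hP := (F.passing c hc _ ngy _ ngx a0 ha0 a1 ha1 hc1).1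
    have h3 := hxy (g⁻¹ • c) (by
      have e1 : ρ x (g⁻¹ • c) = ρ (g • x) c := by rw [← F.inv g, smul_inv_smul]
      have e2 : ρ (g⁻¹ • c) y = ρ c (g • y) := by rw [← F.inv g, smul_inv_smul]
      have e3 : ρ (g • y) (g • x) = ρ y x := F.inv _ _ _
      have s1 := F.geo.symm (g • x) c
      have s2 := F.geo.symm c (g • y)
      have s3 := F.geo.symm y x
      omega) (g⁻¹ • c) (F.V_smul _ _ hc)
    rw [F.geo.self] at h3
    omega
  · have hP := (F.passing c hc _ ngx _ nx a1 ha1 a2 ha2 hc1).1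
    have h3 := hxx c hc
    have s1 := F.geo.symm (g • x) x
    have s2 := F.geo.symm c x
    omega
  · have hP := (F.passing c hc _ nx _ ny a2 ha2 a3 ha3 hc1).1
    have h3 := hxy c hP c hc
    rw [F.geo.self] at h3
    omega
  · have hP := (F.passing c hc _ ny _ nky a3 ha3 a4 ha4 hc1).1
    have h3 := hyy c hc
    omega

/-- fixed points of the quotient group: `g` fixes the image of `c` -/
theorem h43_fix {g : G} {c : Z} (h : qmk F (g • c) = qmk F c) : ∃ k ∈ KA F, (k * g) • c = c := by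
  obtain ⟨k, hk, h1⟩ := qmk_eq_iff.1 h
  exact ⟨k, hk, by rw [mul_smul, ← h1]⟩

/-- L4 (section 6): an element fixing two different apices of the quotient is trivial.  The
hypothesis `hA` is the fact A3 of the cone-off. -/
theorem h43_L4 (hT : 5 * Th ≤ T)
    (hA : ∀ c ∈ F.V, ∀ c' ∈ F.V, c ≠ c' → ∀ g : G, g • c = c → g ∉ KA F →
      ∃ (m : ℕ) (w : Z), ρ c w + ρ w c' = ρ c c' ∧ ∀ k ∈ KA F, δ < ρ w (k • g ^ m • w))
    {c c' : Z} (hc : c ∈ F.V) (hc' : c' ∈ F.V) (hne : qmk F c ≠ qmk F c') {g : G}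
    (h1 : qmk F (g • c) = qmk F c) (h2 : qmk F (g • c') = qmk F c') : g ∈ KA F := by
  -- reduce to `ρ c c' = qd c c'`
  obtain ⟨k0, hk0, hk00⟩ := qd_spec (F := F) c c'
  obtain ⟨k1, hk1, hfix⟩ := h43_fix h1
  by_contra hg
  have hg' : k1 * g ∉ KA F := by
    intro h
    apply hg
    have := Subgroup.mul_mem _ (Subgroup.inv_mem _ hk1) h
    rwa [inv_mul_cancel_left] at this
  have hVc : k0 • c' ∈ F.V := F.V_smul _ _ hc'
  obtain ⟨m, w, hw, hw2⟩ := hA c hc (k0 • c') hVc (fun e => hne (by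
    rw [e, qmk_smul hk0])) (k1 * g) hfix hg'
  have hq := isGeod_qd (F := F)
  have hyp := hyp_qd (F := F) hT
  -- the power fixes both images
  have f1 : ∀ m : ℕ, qmk F ((k1 * g) ^ m • c) = qmk F c := by
    intro m
    induction m with
    | zero => rw [pow_zero, one_smul]
    | succ m ih => rw [pow_succ, mul_smul, hfix, ih]
  have f2 : ∀ m : ℕ, qmk F ((k1 * g) ^ m • c') = qmk F c' := by
    intro m
    induction m with
    | zero => rw [pow_zero, one_smul]
    | succ m ih =>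
      rw [pow_succ', mul_smul, ← qsmul_mk (F := F), ih, qsmul_mk, mul_smul, qmk_smul hk1, h2]
  obtain ⟨k, hk, hk2⟩ := qd_spec (F := F) w ((k1 * g) ^ m • w)
  have hlt := hw2 k hk
  have hq0 : qmk F (k0 • c') = qmk F c' := qmk_smul hk0 c'
  have l1 := qd_le (F := F) c w
  have l2 := qd_le (F := F) w (k0 • c')
  rw [hq0] at l2
  have t1 := hq.tri (qmk F c) (qmk F w) (qmk F c')
  -- four point inequality
  have h4 := hyp (qmk F w) (qmk F ((k1 * g) ^ m • w)) (qmk F c) (qmk F c')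
  have e1 : qd F (qmk F c) (qmk F ((k1 * g) ^ m • w)) = qd F (qmk F c) (qmk F w) := by
    have : qd F (qmk F ((k1 * g) ^ m • c)) (qmk F ((k1 * g) ^ m • w)) =
      qd F (qmk F c) (qmk F w) := od_smul (F := F) _ c w
    rwa [f1 m] at this
  have e2 : qd F (qmk F c') (qmk F ((k1 * g) ^ m • w)) = qd F (qmk F c') (qmk F w) := by
    have : qd F (qmk F ((k1 * g) ^ m • c')) (qmk F ((k1 * g) ^ m • w)) =
      qd F (qmk F c') (qmk F w) := od_smul (F := F) _ c' w
    rwa [f2 m] at this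
  have s1 := hq.symm (qmk F c) (qmk F w)
  have s2 := hq.symm (qmk F c') (qmk F w)
  have s3 := hq.symm (qmk F c) (qmk F ((k1 * g) ^ m • w))
  have s4 := hq.symm (qmk F c') (qmk F ((k1 * g) ^ m • w))
  rcases le_total (qd F (qmk F w) (qmk F c) + qd F (qmk F ((k1 * g) ^ m • w)) (qmk F c'))
    (qd F (qmk F w) (qmk F c') + qd F (qmk F ((k1 * g) ^ m • w)) (qmk F c)) with h | h
  · rw [max_eq_right h] at h4
    omega
  · rw [max_eq_left h] at h4
    omega

end RotFam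

end Burn
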