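import Pool.Agent.W_MP_3ab0ed_h43.Fox
import Pool.Agent.W_MP_3ab0ed_h43.Nrm

/-!
Homology part of MP_3ab0ed_al, block REL.  The set of points `X`, the classes of the relators, the
interface `RelBasis` to the Burnside part and the coordinates on `G = F / [N, N]`.
-/

set_option linter.unusedSectionVars false

namespace W3ab0ed.Rel

open Finsupp

section Rel

variable {κ : Type} (N : Subgroup (FreeGroup κ)) [hN : N.Normal] {I : Type} (a : I → FreeGroup κ)

/-- The points: pairs of an index `i` and a coset of `N ⟨a_i⟩`. -/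
abbrev Pt : Type := Σ i : I, FreeGroup κ ⧸ (N ⊔ Subgroup.zpowers (a i))

/-- the point given by an index and an element -/
abbrev pt (i : I) (q : FreeGroup κ) : Pt N a := ⟨i, QuotientGroup.mk q⟩

theorem smul_pt (f : FreeGroup κ) (i : I) (q : FreeGroup κ) : f • pt N a i q = pt N a i (f * q) :=
  rfl

theorem mem_sup_iff {N : Subgroup (FreeGroup κ)} [N.Normal] {b g : FreeGroup κ} :
    g ∈ N ⊔ Subgroup.zpowers b ↔ ∃ n ∈ N, ∃ k : ℤ, g = n * b ^ k := by
  rw [← SetLike.mem_coe, Subgroup.normal_mul, Set.mem_mul]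
  constructor
  · rintro ⟨n, hn, c, hc, rfl⟩
    obtain ⟨k, rfl⟩ := Subgroup.mem_zpowers_iff.1 hc
    exact ⟨n, hn, k, rfl⟩
  · rintro ⟨n, hn, k, rfl⟩
    exact ⟨n, hn, b ^ k, Subgroup.mem_zpowers_iff.2 ⟨k, rfl⟩, rfl⟩

theorem pt_eq_iff {i : I} {q q' : FreeGroup κ} :
    pt N a i q = pt N a i q' ↔ ∃ n ∈ N, ∃ k : ℤ, q' = n * q * (a i) ^ k := by
  rw [Sigma.mk.injEq]
  simp only [heq_eq_eq, true_and]
  rw [QuotientGroup.eq, mem_sup_iff]
  constructor
  · rintro ⟨n, hn, k, h⟩
    refine ⟨q * n * q⁻¹, hN.conj_mem n hn q, k, ?_⟩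
    rw [inv_mul_eq_iff_eq_mul] at h
    rw [h]
    group
  · rintro ⟨n, hn, k, h⟩
    refine ⟨q⁻¹ * n * q, by simpa using hN.conj_mem n hn q⁻¹, k, ?_⟩
    rw [h]
    group

/-- elements of `N` act trivially on the points -/
theorem smul_of_mem {f : FreeGroup κ} (hf : f ∈ N) (x : Pt N a) : f • x = x := by
  obtain ⟨i, q, hq⟩ : ∃ i q, x = pt N a i q := by
    obtain ⟨i, y⟩ := x
    obtain ⟨q, rfl⟩ := QuotientGroup.mk_surjective y
    exact ⟨i, q, rfl⟩
  subst hq
  rw [smul_pt]
  refine ((pt_eq_iff N a).2 ⟨f, hf, 0, ?_⟩).symm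
  simp

theorem exists_pt (x : Pt N a) : ∃ i q, x = pt N a i q := by
  obtain ⟨i, y⟩ := x
  obtain ⟨q, rfl⟩ := QuotientGroup.mk_surjective y
  exact ⟨i, q, rfl⟩

/-- the permutation of the points given by an element of the free group -/
abbrev ptPerm (f : FreeGroup κ) : Equiv.Perm (Pt N a) := MulAction.toPerm f

theorem ptPerm_pow (f : FreeGroup κ) (j : ℕ) : ptPerm N a f ^ j = ptPerm N a (f ^ j) := by
  have h := map_pow (MulAction.toPermHom (FreeGroup κ) (Pt N a)) f j
  exact h.symm

variable {p : ℕ} (hexp : ∀ f : FreeGroup κ, f ^ p ∈ N)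

/-- the relator `q a_i^p q⁻¹` -/
def relElt (i : I) (q : FreeGroup κ) : N := ⟨q * (a i) ^ p * q⁻¹, hN.conj_mem _ (hexp _) q⟩

/-- the class of the relator belonging to a point -/
noncomputable def relVec (x : Pt N a) : Nab N := nab N (relElt N a hexp x.1 x.2.out)

/-- conjugation on the abelianization of `N` -/
noncomputable def cj (f : FreeGroup κ) : Nab N →+ Nab N :=
  MonoidHom.toAdditive (Abelianization.map (MulAut.conjNormal f).toMonoidHom)

theorem cj_nab (f : FreeGroup κ) (n : N) :
    cj N f (nab N n) = nab N ⟨f * n * f⁻¹, hN.conj_mem _ n.2 f⟩ := rfl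

theorem nab_eq_of_conj {m n : N} (u : N) (h : (m : FreeGroup κ) = u * n * (u : FreeGroup κ)⁻¹) :
    nab N m = nab N n := by
  have : m = u * n * u⁻¹ := Subtype.ext h
  rw [this, nab_mul, nab_mul, nab_inv]
  abel

theorem relElt_eq {i : I} {q q' : FreeGroup κ} (h : pt N a i q = pt N a i q') :
    nab N (relElt N a hexp i q) = nab N (relElt N a hexp i q') := by
  obtain ⟨n, hn, k, rfl⟩ := (pt_eq_iff N a).1 h
  symm
  refine nab_eq_of_conj N ⟨n, hn⟩ ?_
  simp only [relElt]
  have hc : (a i) ^ k * (a i) ^ p * ((a i) ^ k)⁻¹ = (a i) ^ p := by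
    rw [← zpow_natCast, ← zpow_add, add_comm, zpow_add, mul_inv_cancel_right]
  calc n * q * a i ^ k * a i ^ p * (n * q * a i ^ k)⁻¹
      = n * (q * (a i ^ k * a i ^ p * (a i ^ k)⁻¹) * q⁻¹) * n⁻¹ := by group
    _ = n * (q * a i ^ p * q⁻¹) * n⁻¹ := by rw [hc]

theorem relVec_pt (i : I) (q : FreeGroup κ) :
    relVec N a hexp (pt N a i q) = nab N (relElt N a hexp i q) := by
  unfold relVec
  apply relElt_eq
  change (⟨i, _⟩ : Pt N a) = ⟨i, _⟩
  congr 1
  exact QuotientGroup.out_eq' _

theorem cj_relVec (f : FreeGroup κ) (x : Pt N a) :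
    cj N f (relVec N a hexp x) = relVec N a hexp (f • x) := by
  obtain ⟨i, q, rfl⟩ := exists_pt N a x
  rw [smul_pt, relVec_pt, relVec_pt, cj_nab]
  congr 1
  apply Subtype.ext
  simp only [relElt]
  group

theorem foxN_cj (f : FreeGroup κ) (v : Nab N) :
    foxN N (cj N f v) = lk N (QuotientGroup.mk f) (foxN N v) := by
  obtain ⟨n, rfl⟩ := nab_surj N v
  rw [cj_nab, foxN_nab, foxN_nab]
  simp only
  rw [fox_mul, fox_mul, fox_inv, map_neg, ← lk_mul, QuotientGroup.mk_mul,
    (QuotientGroup.eq_one_iff (n : FreeGroup κ)).2 n.2, mul_one, mul_inv_cancel, lk_one]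
  abel

/-- **The interface to the Burnside part**: `N` contains all `p`-th powers and the abelianization of
`N` has as a `ℤ`-basis the classes of the elements `q a_i^p q⁻¹`, one for each `i` and each coset
`q N ⟨a_i⟩`. -/
structure RelBasis (p : ℕ) : Prop where
  exp : ∀ f : FreeGroup κ, f ^ p ∈ N
  li : LinearIndependent ℤ (relVec N a exp)
  sp : ∀ v : Nab N, v ∈ Submodule.span ℤ (Set.range (relVec N a exp))

variable {N a}
variable (H : RelBasis N a p)

/-- the basis of the abelianization of `N` -/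
noncomputable def RelBasis.basis : Module.Basis (Pt N a) ℤ (Nab N) :=
  Module.Basis.mk H.li (fun v _ => H.sp v)

theorem RelBasis.basis_apply (x : Pt N a) : H.basis x = relVec N a H.exp x := by
  simp [RelBasis.basis]

/-- the coordinates of the class of an element of `N` -/
noncomputable def RelBasis.co (v : Nab N) : Pt N a →₀ ℤ := H.basis.repr v

theorem RelBasis.co_add (v w : Nab N) : H.co (v + w) = H.co v + H.co w := map_add _ _ _

theorem RelBasis.co_smul (m : ℤ) (v : Nab N) : H.co (m • v) = m • H.co v := by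
  simp [RelBasis.co]

theorem RelBasis.co_relVec (x : Pt N a) : H.co (relVec N a H.exp x) = single x 1 := by
  rw [← H.basis_apply, RelBasis.co, Module.Basis.repr_self]

theorem RelBasis.co_injective : Function.Injective H.co := H.basis.repr.injective

theorem RelBasis.co_surj (v : Pt N a →₀ ℤ) : ∃ w, H.co w = v := H.basis.repr.surjective v

theorem RelBasis.co_cj (f : FreeGroup κ) (v : Nab N) :
    H.co (cj N f v) = pop (ptPerm N a f) (H.co v) := by
  obtain ⟨w, rfl⟩ : ∃ w, H.basis.repr.symm w = v := H.basis.repr.symm.surjective v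
  induction w using Finsupp.induction_linear with
  | zero => simp [RelBasis.co]
  | add g g' hg hg' => rw [map_add, map_add, H.co_add, hg, hg', H.co_add, map_add]
  | single x m =>
    have e : H.basis.repr.symm (single x m) = m • relVec N a H.exp x := by
      rw [Module.Basis.repr_symm_single, H.basis_apply]
    rw [e, map_zsmul, cj_relVec, H.co_smul, H.co_smul, H.co_relVec, H.co_relVec, map_zsmul,
      pop_single]
    rfl

/-- the map from the free abelian group on the points to the free module -/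
noncomputable def RelBasis.theta : (Pt N a →₀ ℤ) →ₗ[ℤ] ZBk N :=
  Finsupp.lsum ℤ (fun x => LinearMap.toSpanSingleton ℤ (ZBk N) (foxN N (relVec N a H.exp x)))

theorem RelBasis.theta_single (x : Pt N a) (m : ℤ) :
    H.theta (single x m) = m • foxN N (relVec N a H.exp x) := by
  rw [RelBasis.theta, Finsupp.lsum_single, LinearMap.toSpanSingleton_apply]

/-- explicit form of the map: `(i, q) ↦ q ∂(a_i^p)` -/
theorem RelBasis.theta_pt (i : I) (q : FreeGroup κ) :
    H.theta (single (pt N a i q) 1) = lk N (QuotientGroup.mk q) (fox N (a i ^ p)) := by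
  rw [H.theta_single, one_smul, relVec_pt, foxN_nab]
  simp only [relElt]
  have h : q * a i ^ p * q⁻¹ = q * a i ^ p * q⁻¹ := rfl
  rw [fox_mul, fox_mul, fox_inv, map_neg, ← lk_mul, QuotientGroup.mk_mul,
    (QuotientGroup.eq_one_iff (a i ^ p)).2 (H.exp _), mul_one, mul_inv_cancel, lk_one]
  abel

theorem RelBasis.theta_co (v : Nab N) : H.theta (H.co v) = foxN N v := by
  obtain ⟨w, rfl⟩ : ∃ w, H.basis.repr.symm w = v := H.basis.repr.symm.surjective v
  induction w using Finsupp.induction_linear with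
  | zero => simp [RelBasis.co]
  | add g g' hg hg' => rw [map_add, H.co_add, map_add, hg, hg', map_add]
  | single x m =>
    have e : H.basis.repr.symm (single x m) = m • relVec N a H.exp x := by
      rw [Module.Basis.repr_symm_single, H.basis_apply]
    rw [e, H.co_smul, H.co_relVec, map_zsmul, map_zsmul, H.theta_single, one_smul]

/-- exactness on the left -/
theorem RelBasis.theta_injective : Function.Injective H.theta := by
  intro v w h
  obtain ⟨v, rfl⟩ := H.co_surj v
  obtain ⟨w, rfl⟩ := H.co_surj w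
  rw [H.theta_co, H.theta_co] at h
  rw [foxN_injective N h]

theorem RelBasis.bd_theta (v : Pt N a →₀ ℤ) : bd N (H.theta v) = 0 := by
  obtain ⟨v, rfl⟩ := H.co_surj v
  rw [H.theta_co, bd_foxN]

/-- exactness in the middle -/
theorem RelBasis.exact_theta {z : ZBk N} (hz : bd N z = 0) : ∃ v, H.theta v = z := by
  obtain ⟨w, hw⟩ := exact_mid N hz
  exact ⟨H.co w, by rw [H.theta_co, hw]⟩

end Rel

end W3ab0ed.Rel
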