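import Pool.Agent.W_MP_3ab0ed_h43.Rel

/-!
MP_3ab0ed_al, piece P5 (algebraic half).  Inheritance of the basis of the relation module: if `N` has
a relation basis and `N'/N` is freely generated by suitable conjugates of the elements `b_j^p`, then
`N'` has a relation basis.
-/

set_option linter.unusedSectionVars false

namespace W3ab0ed.Rel

open Finsupp

section RB

variable {κ : Type} {N : Subgroup (FreeGroup κ)} [hN : N.Normal] {I : Type} {a : I → FreeGroup κ}
  {p : ℕ}

/-- the element `q a_i^p q⁻¹` of `N` -/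
def relE (ha : ∀ i, a i ^ p ∈ N) (i : I) (q : FreeGroup κ) : N :=
  ⟨q * (a i) ^ p * q⁻¹, hN.conj_mem _ (ha i) q⟩

theorem relE_eq (ha : ∀ i, a i ^ p ∈ N) {i : I} {q q' : FreeGroup κ}
    (h : pt N a i q = pt N a i q') : nab N (relE ha i q) = nab N (relE ha i q') := by
  obtain ⟨n, hn, k, rfl⟩ := (pt_eq_iff N a).1 h
  symm
  refine nab_eq_of_conj N ⟨n, hn⟩ ?_
  simp only [relE]
  have hc : (a i) ^ k * (a i) ^ p * ((a i) ^ k)⁻¹ = (a i) ^ p := by
    rw [← zpow_natCast, ← zpow_add, add_comm, zpow_add, mul_inv_cancel_right]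
  calc n * q * a i ^ k * a i ^ p * (n * q * a i ^ k)⁻¹
      = n * (q * (a i ^ k * a i ^ p * (a i ^ k)⁻¹) * q⁻¹) * n⁻¹ := by group
    _ = n * (q * a i ^ p * q⁻¹) * n⁻¹ := by rw [hc]

/-- the class of `q a_i^p q⁻¹` in the abelianization of `N`, for a point `(i, q)` -/
noncomputable def relV (ha : ∀ i, a i ^ p ∈ N) (x : Pt N a) : Nab N :=
  nab N (relE ha x.1 x.2.out)

theorem relV_pt (ha : ∀ i, a i ^ p ∈ N) (i : I) (q : FreeGroup κ) :
    relV ha (pt N a i q) = nab N (relE ha i q) := by
  unfold relV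
  apply relE_eq
  change (⟨i, _⟩ : Pt N a) = ⟨i, _⟩
  congr 1
  exact QuotientGroup.out_eq' _

/-- the map `(i, q) ↦ [q a_i^p q⁻¹]` -/
noncomputable def Th (ha : ∀ i, a i ^ p ∈ N) : (Pt N a →₀ ℤ) →ₗ[ℤ] Nab N :=
  Finsupp.lsum ℤ (fun x => LinearMap.toSpanSingleton ℤ (Nab N) (relV ha x))

theorem Th_single (ha : ∀ i, a i ^ p ∈ N) (x : Pt N a) (m : ℤ) :
    Th ha (single x m) = m • relV ha x := by
  rw [Th, Finsupp.lsum_single, LinearMap.toSpanSingleton_apply]

theorem Th_pt (ha : ∀ i, a i ^ p ∈ N) (i : I) (q : FreeGroup κ) (m : ℤ) :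
    Th ha (single (pt N a i q) m) = m • nab N (relE ha i q) := by
  rw [Th_single, relV_pt]

theorem Th_eq (ha : ∀ i, a i ^ p ∈ N) :
    Th ha = Finsupp.linearCombination ℤ (relV ha) := by
  ext x : 1
  ext
  simp [Th]

/-- `N` has a relation basis (no condition on the exponent). -/
structure RB (N : Subgroup (FreeGroup κ)) [N.Normal] (a : I → FreeGroup κ) (p : ℕ) : Prop where
  mem : ∀ i, a i ^ p ∈ N
  bij : Function.Bijective (Th (N := N) (a := a) mem)

theorem RB.relBasis (H : RB N a p) (hexp : ∀ f : FreeGroup κ, f ^ p ∈ N) : RelBasis N a p where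
  exp := hexp
  li := by
    have h := H.bij.1
    rw [Th_eq] at h
    exact h
  sp v := by
    obtain ⟨u, hu⟩ := H.bij.2 v
    rw [Th_eq] at hu
    have h2 : relV (N := N) (a := a) (p := p) H.mem = relVec N a hexp := rfl
    rw [← h2, ← Finsupp.range_linearCombination]
    exact ⟨u, hu⟩

theorem Th_cj (ha : ∀ i, a i ^ p ∈ N) (f : FreeGroup κ) (u : Pt N a →₀ ℤ) :
    Th ha (pop (ptPerm N a f) u) = cj N f (Th ha u) := by
  induction u using Finsupp.induction_linear with
  | zero => simp
  | add u v hu hv => rw [map_add, map_add, map_add, map_add, hu, hv]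
  | single x m =>
    obtain ⟨i, q, rfl⟩ := exists_pt N a x
    rw [pop_single, MulAction.toPerm_apply, smul_pt, Th_pt, Th_pt, map_zsmul, cj_nab]
    congr 2
    apply Subtype.ext
    simp only [relE]
    group

end RB

section Funct

variable {κ : Type} {N N' : Subgroup (FreeGroup κ)} [hN : N.Normal] [hN' : N'.Normal]
  {I I' : Type} {a : I → FreeGroup κ} {a' : I' → FreeGroup κ} {p : ℕ}

/-- the inclusion on the abelianizations -/
noncomputable def inc (hle : N ≤ N') : Nab N →+ Nab N' :=
  MonoidHom.toAdditive (Abelianization.map (Subgroup.inclusion hle))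

theorem inc_nab (hle : N ≤ N') (n : N) : inc hle (nab N n) = nab N' (Subgroup.inclusion hle n) :=
  rfl

/-- the map on points -/
def mp (hle : N ≤ N') (e : I → I') (he : ∀ i, a' (e i) = a i) (x : Pt N a) : Pt N' a' :=
  ⟨e x.1, Quotient.map' id (by
    intro q q' h
    rw [QuotientGroup.leftRel_apply] at h ⊢
    simp only [id]
    rw [he]
    exact (sup_le_sup_right hle _) h) x.2⟩

theorem mp_pt (hle : N ≤ N') (e : I → I') (he : ∀ i, a' (e i) = a i) (i : I) (q : FreeGroup κ) :
    mp hle e he (pt N a i q) = pt N' a' (e i) q := rfl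

theorem mp_smul (hle : N ≤ N') (e : I → I') (he : ∀ i, a' (e i) = a i) (f : FreeGroup κ)
    (x : Pt N a) : mp hle e he (f • x) = f • mp hle e he x := by
  obtain ⟨i, q, rfl⟩ := exists_pt N a x
  rfl

theorem inc_Th (hle : N ≤ N') (e : I → I') (he : ∀ i, a' (e i) = a i) (ha : ∀ i, a i ^ p ∈ N)
    (ha' : ∀ i, a' i ^ p ∈ N') (u : Pt N a →₀ ℤ) :
    inc hle (Th ha u) = Th ha' (Finsupp.lmapDomain ℤ ℤ (mp hle e he) u) := by
  induction u using Finsupp.induction_linear with
  | zero => simp
  | add u v hu hv => rw [map_add, map_add, map_add, map_add, hu, hv]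
  | single x m =>
    obtain ⟨i, q, rfl⟩ := exists_pt N a x
    rw [Th_pt, map_zsmul, inc_nab, Finsupp.lmapDomain_apply, Finsupp.mapDomain_single, mp_pt,
      Th_pt]
    congr 2
    apply Subtype.ext
    simp [relE, he]

/-- reindexing a relation basis -/
theorem RB.reindex (H : RB N a p) (e : I ≃ I') (he : ∀ i, a' (e i) = a i) : RB N a' p := by
  have ha' : ∀ i, a' i ^ p ∈ N := by
    intro i
    obtain ⟨j, rfl⟩ := e.surjective i
    rw [he]
    exact H.mem j
  refine ⟨ha', ?_⟩
  have he' : ∀ i, a (e.symm i) = a' i := by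
    intro i
    rw [← he, Equiv.apply_symm_apply]
  have hincid : ∀ v : Nab N, inc (le_refl N) v = v := by
    intro v
    obtain ⟨n, rfl⟩ := nab_surj N v
    rfl
  have h1 : ∀ x : Pt N a', mp (le_refl N) e he (mp (a := a') (a' := a) (le_refl N) e.symm he' x) =
      x := by
    intro x
    obtain ⟨i, q, rfl⟩ := exists_pt N a' x
    rw [mp_pt, mp_pt, Equiv.apply_symm_apply]
  have h2 : ∀ u : Pt N a' →₀ ℤ, Th ha' u =
      Th H.mem (Finsupp.lmapDomain ℤ ℤ (mp (a := a') (a' := a) (le_refl N) e.symm he') u) := by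
    intro u
    rw [← inc_Th (le_refl N) e.symm he' ha' H.mem, hincid]
  have h3 : ∀ x : Pt N a, mp (a := a') (a' := a) (le_refl N) e.symm he'
      (mp (le_refl N) e he x) = x := by
    intro x
    obtain ⟨i, q, rfl⟩ := exists_pt N a x
    rw [mp_pt, mp_pt, Equiv.symm_apply_apply]
  have hcomp : (fun u => Th ha' u) = Th H.mem ∘
      (Finsupp.lmapDomain ℤ ℤ (mp (a := a') (a' := a) (le_refl N) e.symm he')) := by
    funext u
    exact h2 u
  change Function.Bijective (fun u => Th ha' u)
  rw [hcomp]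
  refine H.bij.comp ?_
  constructor
  · intro u v h
    have := congrArg (Finsupp.lmapDomain ℤ ℤ (mp (le_refl N) e he)) h
    simp only [Finsupp.lmapDomain_apply, ← Finsupp.mapDomain_comp] at this
    have hid : (mp (le_refl N) e he ∘ mp (a := a') (a' := a) (le_refl N) e.symm he') = id := by
      funext x
      exact h1 x
    rwa [hid, Finsupp.mapDomain_id, Finsupp.mapDomain_id] at this
  · intro u
    refine ⟨Finsupp.lmapDomain ℤ ℤ (mp (le_refl N) e he) u, ?_⟩
    simp only [Finsupp.lmapDomain_apply, ← Finsupp.mapDomain_comp]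
    have hid : (mp (a := a') (a' := a) (le_refl N) e.symm he' ∘ mp (le_refl N) e he) = id := by
      funext x
      exact h3 x
    rw [hid, Finsupp.mapDomain_id]

end Funct

section Psi

variable {κ : Type} {N N' : Subgroup (FreeGroup κ)} [hN : N.Normal] [hN' : N'.Normal]
  {I I' : Type} {a : I → FreeGroup κ} {a' : I' → FreeGroup κ} {p : ℕ}

/-- the coordinates on the abelianization of `N`, pushed to the points of `N'` -/
noncomputable def RB.psi (H : RB N a p) (hle : N ≤ N') (e : I → I') (he : ∀ i, a' (e i) = a i) :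
    Nab N →+ (Pt N' a' →₀ ℤ) :=
  ((Finsupp.lmapDomain ℤ ℤ (mp hle e he)) ∘ₗ
    (LinearEquiv.ofBijective (Th (N := N) (a := a) H.mem) H.bij).symm.toLinearMap).toAddMonoidHom

theorem RB.psi_Th (H : RB N a p) (hle : N ≤ N') (e : I → I') (he : ∀ i, a' (e i) = a i)
    (u : Pt N a →₀ ℤ) :
    H.psi hle e he (Th H.mem u) = Finsupp.lmapDomain ℤ ℤ (mp hle e he) u := by
  change Finsupp.lmapDomain ℤ ℤ (mp hle e he)
    ((LinearEquiv.ofBijective (Th (N := N) (a := a) H.mem) H.bij).symm (Th H.mem u)) = _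
  congr 1
  exact (LinearEquiv.ofBijective (Th (N := N) (a := a) H.mem) H.bij).symm_apply_apply u

theorem RB.Th_surj (H : RB N a p) (v : Nab N) : ∃ u, Th H.mem u = v := H.bij.2 v

theorem RB.Th_psi (H : RB N a p) (hle : N ≤ N') (e : I → I') (he : ∀ i, a' (e i) = a i)
    (ha' : ∀ i, a' i ^ p ∈ N') (v : Nab N) : Th ha' (H.psi hle e he v) = inc hle v := by
  obtain ⟨u, rfl⟩ := H.Th_surj v
  rw [H.psi_Th, inc_Th hle e he H.mem ha']

theorem RB.psi_cj (H : RB N a p) (hle : N ≤ N') (e : I → I') (he : ∀ i, a' (e i) = a i)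
    {f : FreeGroup κ} (hf : f ∈ N') (v : Nab N) :
    H.psi hle e he (cj N f v) = H.psi hle e he v := by
  obtain ⟨u, rfl⟩ := H.Th_surj v
  rw [← Th_cj, H.psi_Th, H.psi_Th]
  induction u using Finsupp.induction_linear with
  | zero => simp
  | add u v hu hv => rw [map_add, map_add, map_add, hu, hv]
  | single x m =>
    rw [pop_single, Finsupp.lmapDomain_apply, Finsupp.lmapDomain_apply,
      Finsupp.mapDomain_single, Finsupp.mapDomain_single, MulAction.toPerm_apply, mp_smul,
      smul_of_mem N' a' hf]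

end Psi

section Step

variable {κ : Type} {N N' : Subgroup (FreeGroup κ)} [hN : N.Normal] [hN' : N'.Normal]
  {I J : Type} {a : I → FreeGroup κ} {b : J → FreeGroup κ} {p : ℕ}

/-- **The output of one geometric step**: `N'/N` is freely generated by the classes of
`r b_j^p r⁻¹`, one for each `j` and each coset `r N' ⟨b_j⟩`, for some choice of representatives. -/
structure StepFree (N N' : Subgroup (FreeGroup κ)) [N.Normal] [N'.Normal] (b : J → FreeGroup κ)
    (p : ℕ) : Prop where
  le : N ≤ N'
  mem : ∀ j, b j ^ p ∈ N'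
  ex : ∃ r : Pt N' b → FreeGroup κ, (∀ x, pt N' b x.1 (r x) = x) ∧
    Function.Injective (FreeGroup.lift (fun x : Pt N' b =>
      (QuotientGroup.mk (r x * b x.1 ^ p * (r x)⁻¹) : FreeGroup κ ⧸ N))) ∧
    ∀ n ∈ N', ∃ w : FreeGroup (Pt N' b), FreeGroup.lift (fun x : Pt N' b =>
      (QuotientGroup.mk (r x * b x.1 ^ p * (r x)⁻¹) : FreeGroup κ ⧸ N)) w = QuotientGroup.mk n

theorem step_aux (H : RB N a p) (S : StepFree N N' b p) : RB N' (Sum.elim a b) p := by
  obtain ⟨hle, hmem, r, hr, hinj, hsurj⟩ := S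
  have hab : ∀ i, (Sum.elim a b) i ^ p ∈ N' := by
    rintro (i | j)
    · exact hle (H.mem i)
    · exact hmem j
  refine ⟨hab, ?_⟩
  -- the lift of the free group
  let σ : FreeGroup (Pt N' b) →* N' := FreeGroup.lift fun x => relE hmem x.1 (r x)
  have hσ : ∀ w, (QuotientGroup.mk ((σ w : N') : FreeGroup κ) : FreeGroup κ ⧸ N) =
      FreeGroup.lift (fun x : Pt N' b =>
      (QuotientGroup.mk (r x * b x.1 ^ p * (r x)⁻¹) : FreeGroup κ ⧸ N)) w := by
    intro w
    have h : ((QuotientGroup.mk' N).comp (N'.subtype)).comp σ = FreeGroup.lift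
        (fun x : Pt N' b => (QuotientGroup.mk (r x * b x.1 ^ p * (r x)⁻¹) : FreeGroup κ ⧸ N)) := by
      ext x
      simp [σ, relE]
    exact DFunLike.congr_fun h w
  choose W hW using fun n : N' => hsurj n n.2
  have hWm : ∀ m n : N', W (m * n) = W m * W n := by
    intro m n
    apply hinj
    rw [map_mul, hW, hW, hW, Subgroup.coe_mul, QuotientGroup.mk_mul]
  have hW1 : ∀ n : N', (n : FreeGroup κ) ∈ N → W n = 1 := by
    intro n hn
    apply hinj
    rw [hW, map_one]
    exact (QuotientGroup.eq_one_iff _).2 hn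
  have hWσ : ∀ w, W (σ w) = w := by
    intro w
    apply hinj
    rw [hW, hσ]
  obtain ⟨rem, hrem⟩ : ∃ rem : N' → N, ∀ n : N', (rem n : FreeGroup κ) =
      (n : FreeGroup κ) * ((σ (W n) : N') : FreeGroup κ)⁻¹ := by
    refine ⟨fun n => ⟨(n : FreeGroup κ) * ((σ (W n) : N') : FreeGroup κ)⁻¹, ?_⟩, fun n => rfl⟩
    rw [← QuotientGroup.eq_one_iff, QuotientGroup.mk_mul, QuotientGroup.mk_inv, hσ, hW,
      mul_inv_cancel]
  -- the inclusion of points
  let e2 : Pt N' b → Pt N' (Sum.elim a b) := mp (le_refl N') Sum.inr (fun _ => rfl)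
  let ψ : Nab N →+ (Pt N' (Sum.elim a b) →₀ ℤ) :=
    H.psi (a' := Sum.elim a b) hle Sum.inl (fun _ => rfl)
  have hψ : ∀ v, Th hab (ψ v) = inc hle v := fun v => H.Th_psi hle Sum.inl (fun _ => rfl) hab v
  have hψcj : ∀ f ∈ N', ∀ v, ψ (cj N f v) = ψ v := fun f hf v =>
    H.psi_cj hle Sum.inl (fun _ => rfl) hf v
  -- abelianization of the free group
  let ab : FreeGroup (Pt N' b) →* Multiplicative (Pt N' (Sum.elim a b) →₀ ℤ) :=
    FreeGroup.lift fun x => Multiplicative.ofAdd (single (e2 x) 1)
  let Ψ : N' →* Multiplicative (Pt N' (Sum.elim a b) →₀ ℤ) := MonoidHom.mk' (fun n =>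
      ab (W n) * Multiplicative.ofAdd (ψ (nab N (rem n)))) (by
    intro m n
    have h1 : nab N (rem (m * n)) = nab N (rem m) +
        cj N (σ (W m) : N') (nab N (rem n)) := by
      rw [cj_nab, ← nab_mul]
      congr 1
      apply Subtype.ext
      simp only [Subgroup.coe_mul, hrem, hWm, map_mul, mul_inv_rev]
      group
    rw [hWm, map_mul, h1, map_add, hψcj _ (σ (W m)).2, ofAdd_add, mul_mul_mul_comm])
  let ψ' : Nab N' →+ (Pt N' (Sum.elim a b) →₀ ℤ) :=
    MonoidHom.toAdditive (Abelianization.lift Ψ)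
  have hψ' : ∀ n : N', ψ' (nab N' n) = Multiplicative.toAdd (ab (W n)) +
      ψ (nab N (rem n)) := fun n => rfl
  -- first composition
  have hab2 : ∀ w, Th hab (Multiplicative.toAdd (ab w)) = nab N' (σ w) := by
    intro w
    have h : (AddMonoidHom.toMultiplicative (Th hab).toAddMonoidHom).comp ab =
        (AddMonoidHom.toMultiplicative (AddMonoidHom.id (Nab N'))).comp
          ((MonoidHom.mk' (fun n : N' => Multiplicative.ofAdd (nab N' n))
            (fun m n => by rw [nab_mul, ofAdd_add])).comp σ) := by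
      ext x
      simp only [MonoidHom.comp_apply, ab, σ, FreeGroup.lift_apply_of]
      change Multiplicative.ofAdd (Th hab (single (e2 x) 1)) =
        Multiplicative.ofAdd (nab N' (relE hmem x.1 (r x)))
      congr 1
      have hx : e2 x = pt N' (Sum.elim a b) (Sum.inr x.1) (r x) := by
        conv_lhs => rw [← hr x]
        rfl
      rw [hx, Th_pt, one_smul]
      rfl
    exact congrArg Multiplicative.toAdd (DFunLike.congr_fun h w)
  have hright : ∀ v, Th hab (ψ' v) = v := by
    intro v
    obtain ⟨n, rfl⟩ := nab_surj N' v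
    rw [hψ', map_add, hab2, hψ, inc_nab, ← nab_mul]
    have h1 : (σ (W n)) * (Subgroup.inclusion hle (rem n)) =
        σ (W n) * n * (σ (W n))⁻¹ := by
      apply Subtype.ext
      simp only [Subgroup.coe_mul, Subgroup.coe_inv, Subgroup.coe_inclusion, hrem]
      group
    rw [h1]
    exact nab_eq_of_conj N' (σ (W n)) rfl
  have hleft : ∀ u, ψ' (Th hab u) = u := by
    intro u
    induction u using Finsupp.induction_linear with
    | zero => simp
    | add u v hu hv => rw [map_add, map_add, hu, hv]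
    | single x m =>
      obtain ⟨i, q, rfl⟩ := exists_pt N' (Sum.elim a b) x
      rw [Th_pt, map_zsmul]
      have key : ψ' (nab N' (relE hab i q)) = single (pt N' (Sum.elim a b) i q) 1 := by
        rcases i with i | j
        · have hin : ((relE hab (Sum.inl i) q : N') : FreeGroup κ) ∈ N :=
            hN.conj_mem _ (H.mem i) q
          rw [hψ', hW1 _ hin, map_one, toAdd_one, zero_add]
          have h1 : nab N (rem (relE hab (Sum.inl i) q)) = nab N (relE H.mem i q) := by
            congr 1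
            apply Subtype.ext
            simp only [hrem, hW1 _ hin, map_one, Subgroup.coe_one, inv_one, mul_one]
            rfl
          rw [h1]
          have h2 : nab N (relE H.mem i q) = Th H.mem (single (pt N a i q) 1) := by
            rw [Th_pt, one_smul]
          rw [h2]
          refine (H.psi_Th hle Sum.inl _ _).trans ?_
          rw [Finsupp.lmapDomain_apply, Finsupp.mapDomain_single]
          rfl
        · have h0 : nab N' (relE hab (Sum.inr j) q) =
              nab N' (relE hmem (pt N' b j q).1 (r (pt N' b j q))) := by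
            have h1 : pt N' b j q = pt N' b (pt N' b j q).1 (r (pt N' b j q)) :=
              (hr (pt N' b j q)).symm
            exact relE_eq hmem h1
          have h3 : relE hmem (pt N' b j q).1 (r (pt N' b j q)) =
              σ (FreeGroup.of (pt N' b j q)) := by
            simp [σ]
          rw [h0, h3, hψ', hWσ]
          have h4 : nab N (rem (σ (FreeGroup.of (pt N' b j q)))) = nab N 1 := by
            congr 1
            apply Subtype.ext
            simp only [hrem, hWσ, mul_inv_cancel, Subgroup.coe_one]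
          rw [h4, nab_one, map_zero, add_zero]
          simp only [ab, FreeGroup.lift_apply_of, toAdd_ofAdd]
          rfl
      rw [key, smul_single, smul_eq_mul, mul_one]
  exact ⟨fun u v h => by rw [← hleft u, ← hleft v, h], fun v => ⟨ψ' v, hright v⟩⟩

end Step

end W3ab0ed.Rel
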